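import Mathlib

/-!
The canonical partition theorem for powers of a finite module, deduced from the multidimensional
Hales-Jewett theorem.
-/

set_option autoImplicit false

namespace Run7.h696

open Combinatorics

section canon

variable {R V : Type} [Ring R] [AddCommGroup V] [Module R V]

/-- an embedding of powers of a module which preserves and reflects congruence modulo submodules -/
def GoodEmb (R : Type) {V : Type} [Ring R] [AddCommGroup V] [Module R V] {A B : Type}
    (f : (A → V) → (B → V)) : Prop :=
  ∀ (W : Submodule R V) (a b : A → V), (∀ j, f a j - f b j ∈ W) ↔ ∀ i, a i - b i ∈ W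

theorem inv_of_single {B V : Type} [AddCommGroup V] [Finite B] [DecidableEq B]
    (E : Setoid (B → V)) (S : Set V)
    (h : ∀ (u : B → V) (e : B) (x : V), x ∈ S → E u (Function.update u e (u e + x)))
    (a b : B → V) (hab : ∀ j, b j - a j ∈ S) : E a b := by
  cases nonempty_fintype B
  have key : ∀ s : Finset B, E a (s.piecewise b a) := by
    intro s
    induction s using Finset.induction_on with
    | empty => rw [Finset.piecewise_empty]
    | insert e s he ih =>
      have h1 := h (s.piecewise b a) e (b e - a e) (hab e)
      have h2 : Function.update (s.piecewise b a) e (s.piecewise b a e + (b e - a e)) =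
          (insert e s).piecewise b a := by
        rw [Finset.piecewise_insert]
        congr 1
        rw [Finset.piecewise_eq_of_notMem _ _ _ he]
        abel
      have h3 : E (s.piecewise b a) ((insert e s).piecewise b a) := by
        rw [← h2]
        convert h1
      exact E.trans ih h3
  have := key Finset.univ
  rwa [Finset.piecewise_univ] at this

/-- the affine function of the letter `(ρ, c)` -/
def app {A : Type} [Fintype A] (g : (A → R) × V) (v : A → V) : V := ∑ i, g.1 i • v i + g.2

theorem app_const {A : Type} [Fintype A] (c : V) (v : A → V) : app ((0 : A → R), c) v = c := by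
  simp [app]

theorem app_single {A : Type} [Fintype A] [DecidableEq A] (i : A) (r : R) (c : V) (v : A → V) :
    app (Pi.single i r, c) v = r • v i + c := by
  unfold app
  congr 1
  rw [Finset.sum_eq_single i]
  · simp
  · intro j _ hj
    simp [Pi.single_eq_of_ne hj]
  · intro h
    exact absurd (Finset.mem_univ i) h

theorem app_sub {A : Type} [Fintype A] (g : (A → R) × V) (v v' : A → V) (W : Submodule R V)
    (h : ∀ i, v i - v' i ∈ W) : app g v - app g v' ∈ W := by
  unfold app
  have : ∑ i, g.1 i • v i + g.2 - (∑ i, g.1 i • v' i + g.2) = ∑ i, g.1 i • (v i - v' i) := by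
    simp [smul_sub, Finset.sum_sub_distrib]
  rw [this]
  exact Submodule.sum_mem _ fun i _ => W.smul_mem _ (h i)

theorem canonical_aux [Finite R] [Finite V] (A : Type) [Finite A] (H : Submodule R V) :
    ∃ (B : Type) (_ : Finite B), ∀ E : Setoid (B → V),
      (∀ a b : B → V, (∀ j, a j - b j ∈ H) → E a b) →
      ∃ (f : (A → V) → (B → V)) (H' : Submodule R V), GoodEmb R f ∧
        ∀ a b, E (f a) (f b) ↔ ∀ i, a i - b i ∈ H' := by
  classical
  cases nonempty_fintype A
  induction H using WellFoundedGT.induction with
  | ind H ih =>
  choose B hB hBE using ih
  let η : Type := Σ H' : {H' : Submodule R V // H < H'}, B H'.1 H'.2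
  have : ∀ H' : {H' : Submodule R V // H < H'}, Finite (B H'.1 H'.2) := fun H' => hB H'.1 H'.2
  have : Finite η := inferInstance
  obtain ⟨I, hI, hJ⟩ := Subspace.exists_mono_in_high_dimension ((A → R) × V)
    (Set ((A → V) × (A → V))) η
  refine ⟨A ⊕ I, inferInstance, fun E hE => ?_⟩
  let ev : (I → (A → R) × V) → (A → V) → (A ⊕ I → V) := fun W v =>
    Sum.elim v (fun i => app (W i) v)
  obtain ⟨l, c, hl⟩ := hJ (fun W => {p | E (ev W p.1) (ev W p.2)})
  have hlc : ∀ (x : η → (A → R) × V) (v v' : A → V), E (ev (l x) v) (ev (l x) v') ↔ (v, v') ∈ c := by
    intro x v v'
    have := hl x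
    rw [← this]
    rfl
  by_cases hcase : ∀ v v' : A → V, (v, v') ∈ c → ∀ i, v i - v' i ∈ H
  · refine ⟨ev (l fun _ => (0, 0)), H, ?_, ?_⟩
    · intro W a b
      constructor
      · intro h i
        exact h (Sum.inl i)
      · intro h j
        rcases j with j | j
        · exact h j
        · exact app_sub _ _ _ _ h
    · intro a b
      rw [hlc]
      constructor
      · exact hcase a b
      · intro h
        rw [← hlc (fun _ => (0, 0))]
        apply hE
        rintro (j | j)
        · exact h j
        · exact app_sub _ _ _ _ h
  · push Not at hcase
    obtain ⟨v, v', hvc, i, hi⟩ := hcase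
    set δ : V := v' i - v i with hδ
    have hδH : δ ∉ H := by
      intro h
      apply hi
      have := H.neg_mem h
      rwa [hδ, neg_sub] at this
    have hlt : H < H ⊔ Submodule.span R {δ} := by
      refine lt_of_le_of_ne le_sup_left ?_
      intro h
      apply hδH
      rw [h]
      exact (le_sup_right : Submodule.span R {δ} ≤ _) (Submodule.mem_span_singleton_self δ)
    set H' : Submodule R V := H ⊔ Submodule.span R {δ} with hH'
    let Φ : (A → V) → (η → V) → (A ⊕ I → V) := fun w u =>
      Sum.elim w (fun j => Sum.elim (fun g => app g w) u (l.idxFun j))
    have hΦ : ∀ (w : A → V) (x : η → (A → R) × V), ev (l x) w = Φ w (fun e => app (x e) w) := by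
      intro w x
      funext j
      rcases j with j | j
      · rfl
      · show app (l x j) w = Sum.elim (fun g => app g w) (fun e => app (x e) w) (l.idxFun j)
        rw [Subspace.apply_def]
        cases l.idxFun j <;> rfl
    -- invariance of `u ↦ Φ v u`
    have hstar : ∀ u : η → V, E (Φ v u) (Φ v' u) := by
      intro u
      have h1 := (hlc (fun e => ((0 : A → R), u e)) v v').2 hvc
      rw [hΦ, hΦ] at h1
      simpa only [app_const] using h1
    have hsingle : ∀ (u : η → V) (e : η) (r : R),
        E (Φ v u) (Φ v (Function.update u e (u e + r • δ))) := by
      intro u e r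
      have h1 := (hlc (Function.update (fun e => ((0 : A → R), u e)) e
        (Pi.single i r, u e - r • v i)) v v').2 hvc
      rw [hΦ, hΦ] at h1
      have h2 : (fun e' => app ((Function.update (fun e => ((0 : A → R), u e)) e
          (Pi.single i r, u e - r • v i)) e') v) = u := by
        funext e'
        by_cases he : e' = e
        · subst he
          rw [Function.update_self, app_single]
          abel
        · rw [Function.update_of_ne he, app_const]
      have h3 : (fun e' => app ((Function.update (fun e => ((0 : A → R), u e)) e
          (Pi.single i r, u e - r • v i)) e') v') = Function.update u e (u e + r • δ) := by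
        funext e'
        by_cases he : e' = e
        · subst he
          rw [Function.update_self, Function.update_self, app_single, hδ, smul_sub]
          abel
        · rw [Function.update_of_ne he, Function.update_of_ne he, app_const]
      rw [h2, h3] at h1
      exact E.trans h1 (E.symm (hstar _))
    have hinvH : ∀ (u : η → V) (e : η) (x : V), x ∈ H →
        E (Φ v u) (Φ v (Function.update u e (u e + x))) := by
      intro u e x hx
      apply hE
      rintro (j | j)
      · show v j - v j ∈ H
        rw [sub_self]
        exact H.zero_mem
      · show Sum.elim (fun g => app g v) u (l.idxFun j) -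
          Sum.elim (fun g => app g v) (Function.update u e (u e + x)) (l.idxFun j) ∈ H
        cases l.idxFun j with
        | inl g =>
          show app g v - app g v ∈ H
          rw [sub_self]
          exact H.zero_mem
        | inr e' =>
          show u e' - Function.update u e (u e + x) e' ∈ H
          by_cases he : e' = e
          · subst he
            rw [Function.update_self]
            have : u e' - (u e' + x) = -x := by abel
            rw [this]
            exact H.neg_mem hx
          · rw [Function.update_of_ne he, sub_self]
            exact H.zero_mem
    let E1 : Setoid (η → V) := E.comap (Φ v)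
    have hE1 : ∀ a b : η → V, (∀ j, b j - a j ∈ H') → E1 a b := by
      apply inv_of_single E1 (H' : Set V)
      intro u e x hx
      obtain ⟨y, hy, z, hz, rfl⟩ := Submodule.mem_sup.1 hx
      obtain ⟨r, rfl⟩ := Submodule.mem_span_singleton.1 hz
      have h1 := hinvH u e y hy
      have h2 := hsingle (Function.update u e (u e + y)) e r
      rw [Function.update_self, Function.update_idem, add_assoc] at h2
      show E (Φ v u) (Φ v _)
      convert E.trans h1 h2
    -- restrict to the coordinates of `H'`
    let ι : B H' hlt → η := fun b => ⟨⟨H', hlt⟩, b⟩
    have hι : Function.Injective ι := by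
      intro b b' h
      exact eq_of_heq (Sigma.mk.inj h).2
    let ext : (B H' hlt → V) → (η → V) := fun u => Function.extend ι u 0
    have hext : ∀ (W : Submodule R V) (a b : B H' hlt → V), (∀ j, ext a j - ext b j ∈ W) ↔
        ∀ j, a j - b j ∈ W := by
      intro W a b
      constructor
      · intro h j
        have := h (ι j)
        simpa only [ext, hι.extend_apply] using this
      · intro h j
        by_cases hj : ∃ b, ι b = j
        · obtain ⟨j, rfl⟩ := hj
          simpa only [ext, hι.extend_apply] using h j
        · simp only [ext]
          rw [Function.extend_apply' _ _ _ hj, Function.extend_apply' _ _ _ hj, sub_self]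
          exact W.zero_mem
    obtain ⟨f, H'', hf, hk⟩ := hBE H' hlt (E1.comap ext) (by
      intro a b h
      apply hE1
      intro j
      have := (hext H' b a).2 (fun j => by
        have := H'.neg_mem (h j)
        rwa [neg_sub] at this) j
      exact this)
    refine ⟨fun a => Φ v (ext (f a)), H'', ?_, ?_⟩
    · intro W a b
      rw [← hf W, ← hext W]
      constructor
      · intro h e
        obtain ⟨j, hj⟩ := l.proper e
        have h1 := h (Sum.inr j)
        simpa only [Φ, Sum.elim_inr, hj] using h1
      · intro h j
        rcases j with j | j
        · show v j - v j ∈ W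
          rw [sub_self]
          exact W.zero_mem
        · show Sum.elim (fun g => app g v) (ext (f a)) (l.idxFun j) -
            Sum.elim (fun g => app g v) (ext (f b)) (l.idxFun j) ∈ W
          cases l.idxFun j with
          | inl g =>
            show app g v - app g v ∈ W
            rw [sub_self]
            exact W.zero_mem
          | inr e => exact h e
    · intro a b
      rw [← hk]
      rfl

/-- **The canonical partition theorem** for powers of a finite module. -/
theorem canonical [Finite R] [Finite V] (A : Type) [Finite A] :
    ∃ (B : Type) (_ : Finite B), ∀ E : Setoid (B → V),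
      ∃ (f : (A → V) → (B → V)) (H' : Submodule R V), GoodEmb R f ∧
        ∀ a b, E (f a) (f b) ↔ ∀ i, a i - b i ∈ H' := by
  obtain ⟨B, hB, h⟩ := canonical_aux (R := R) (V := V) A ⊥
  refine ⟨B, hB, fun E => h E fun a b hab => ?_⟩
  have : a = b := by
    funext j
    have := hab j
    rw [Submodule.mem_bot, sub_eq_zero] at this
    exact this
  rw [this]

end canon

end Run7.h696
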