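import Pool.Agent.Run7.h696.Defs
import Pool.Agent.Run7.h696.Canon

/-!
The combinatorial step: homomorphisms of join-semilattices between powers of `M₃` and canonical
partitions.
-/

set_option autoImplicit false

namespace Run7.h696

/-- the Klein four group as a vector space over the field with two elements -/
abbrev F4 : Type := ZMod 2 × ZMod 2

/-- the subspace of `F4` which belongs to an element of `M₃` -/
def ker3 (s : M3) (v : F4) : Prop :=
  match s with
  | .bot => True
  | .a => v.1 = 0
  | .b => v.2 = 0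
  | .c => v.1 + v.2 = 0
  | .top => v = 0

instance (s : M3) (v : F4) : Decidable (ker3 s v) := by
  unfold ker3
  cases s <;> infer_instance

theorem ker3_zero (s : M3) : ker3 s 0 := by revert s; decide

theorem ker3_add (s : M3) (v w : F4) : ker3 s v → ker3 s w → ker3 s (v + w) := by
  revert s v w; decide

theorem ker3_smul (s : M3) (c : ZMod 2) (v : F4) : ker3 s v → ker3 s (c • v) := by
  revert s c v; decide

theorem ker3_sup (s t : M3) (v : F4) : ker3 (s ⊔ t) v ↔ ker3 s v ∧ ker3 t v := by
  revert s t v; decide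

theorem ker3_bot (v : F4) : ker3 (⊥ : M3) v := trivial

theorem ker3_top (v : F4) : ker3 (⊤ : M3) v ↔ v = 0 := Iff.rfl

theorem exists_ker3 (P : F4 → Prop) (h0 : P 0) (hadd : ∀ x y, P x → P y → P (x + y)) :
    ∃ r : M3, ∀ x, P x ↔ ker3 r x := by
  have e0 : ∀ x : F4, x = 0 ∨ x = (1, 0) ∨ x = (0, 1) ∨ x = (1, 1) := by decide
  have a1 : ((1, 0) : F4) + (0, 1) = (1, 1) := by decide
  have a2 : ((1, 0) : F4) + (1, 1) = (0, 1) := by decide
  have a3 : ((0, 1) : F4) + (1, 1) = (1, 0) := by decide
  have b1 := hadd (1, 0) (0, 1)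
  have b2 := hadd (1, 0) (1, 1)
  have b3 := hadd (0, 1) (1, 1)
  rw [a1] at b1
  rw [a2] at b2
  rw [a3] at b3
  by_cases h1 : P (1, 0) <;> by_cases h2 : P (0, 1)
  · refine ⟨.bot, fun x => ?_⟩
    have h3 := b1 h1 h2
    rcases e0 x with rfl | rfl | rfl | rfl <;> simp_all [ker3]
  · refine ⟨.b, fun x => ?_⟩
    have h3 : ¬ P (1, 1) := fun h => h2 (b2 h1 h)
    rcases e0 x with rfl | rfl | rfl | rfl <;> simp_all [ker3]
  · refine ⟨.a, fun x => ?_⟩
    have h3 : ¬ P (1, 1) := fun h => h1 (b3 h2 h)
    rcases e0 x with rfl | rfl | rfl | rfl <;> simp_all [ker3]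
  · by_cases h3 : P (1, 1)
    · refine ⟨.c, fun x => ?_⟩
      have e1 : (1 + 1 : ZMod 2) = 0 := by decide
      rcases e0 x with rfl | rfl | rfl | rfl <;> simp_all [ker3]
    · refine ⟨.top, fun x => ?_⟩
      rcases e0 x with rfl | rfl | rfl | rfl <;> simp_all [ker3]

/-! ### words -/

/-- the congruence on words over the alphabet `Fin K → F4` which belongs to `s` -/
def Rel {K : ℕ} (s : Fin K → M3) {I : Type} (w w' : I → Fin K → F4) : Prop :=
  ∀ t i, ker3 (s i) (w t i - w' t i)

/-- the submodule of `Fin K → F4` which belongs to `s` -/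
def toSub {K : ℕ} (s : Fin K → M3) : Submodule (Fin K → ZMod 2) (Fin K → F4) where
  carrier := {v | ∀ i, ker3 (s i) (v i)}
  add_mem' := fun hv hw i => ker3_add _ _ _ (hv i) (hw i)
  zero_mem' := fun i => ker3_zero _
  smul_mem' := fun c _ hv i => ker3_smul _ (c i) _ (hv i)

theorem mem_toSub {K : ℕ} (s : Fin K → M3) (v : Fin K → F4) :
    v ∈ toSub s ↔ ∀ i, ker3 (s i) (v i) := Iff.rfl

theorem exists_toSub {K : ℕ} (H : Submodule (Fin K → ZMod 2) (Fin K → F4)) :
    ∃ r : Fin K → M3, H = toSub r := by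
  classical
  have h1 : ∀ i : Fin K, ∃ r : M3, ∀ x : F4, (Pi.single i x : Fin K → F4) ∈ H ↔ ker3 r x := by
    intro i
    apply exists_ker3
    · rw [Pi.single_zero]
      exact H.zero_mem
    · intro x y hx hy
      rw [Pi.single_add]
      exact H.add_mem hx hy
  choose r hr using h1
  refine ⟨r, ?_⟩
  ext v
  rw [mem_toSub]
  constructor
  · intro hv i
    rw [← hr]
    have := H.smul_mem (Pi.single i 1) hv
    convert this
    funext j
    by_cases hj : j = i
    · subst hj
      simp
    · simp [Pi.single_eq_of_ne hj]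
  · intro h
    have h2 : v = ∑ i, Pi.single i (v i) := by
      funext j
      simp
    rw [h2]
    exact Submodule.sum_mem _ fun i _ => (hr i _).2 (h i)

theorem rel_iff {K : ℕ} (s : Fin K → M3) {I : Type} (w w' : I → Fin K → F4) :
    Rel s w w' ↔ ∀ t, w t - w' t ∈ toSub s := Iff.rfl

/-! ### representing homomorphisms -/

/-- the linear maps with the kernel `ker3 s` -/
def phi (s : M3) (x : F4) : F4 :=
  match s with
  | .bot => 0
  | .a => (x.1, 0)
  | .b => (x.2, 0)
  | .c => (x.1 + x.2, 0)
  | .top => x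

theorem phi_sub (s : M3) (x y : F4) : phi s (x - y) = phi s x - phi s y := by
  revert s x y; decide

/-- first linear map of a balanced triple -/
def G1 (p q t : M3) (x : F4) : F4 × F4 := if p = q ⊔ t then (phi q x, phi t x) else (phi p x, 0)

/-- second linear map of a balanced triple -/
def G2 (p q t : M3) (x : F4) : F4 × F4 :=
  if p = q ⊔ t then (phi q x, 0) else if q = p ⊔ t then (phi p x, phi t x)
  else if t = p ⊔ q then (0, phi q x) else (phi q x, 0)

theorem G1_sub (p q t : M3) (x y : F4) : G1 p q t (x - y) = G1 p q t x - G1 p q t y := by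
  unfold G1
  split_ifs <;> simp [phi_sub]

theorem G2_sub (p q t : M3) (x y : F4) : G2 p q t (x - y) = G2 p q t x - G2 p q t y := by
  unfold G2
  split_ifs <;> simp [phi_sub]

theorem G_ker (p q t : M3) (h1 : p ⊔ q = q ⊔ t) (h2 : q ⊔ t = p ⊔ t) (x : F4) :
    (G1 p q t x = 0 ↔ ker3 p x) ∧ (G2 p q t x = 0 ↔ ker3 q x) ∧
      (G1 p q t x + G2 p q t x = 0 ↔ ker3 t x) := by
  revert p q t x; decide

/-- the coordinates of an element of `F4 × F4` -/
def crd (x : F4 × F4) : Fin 4 → ZMod 2 := ![x.1.1, x.1.2, x.2.1, x.2.2]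

theorem crd_eq_zero (x : F4 × F4) : (∀ d, crd x d = 0) ↔ x = 0 := by
  constructor
  · intro h
    have h0 := h 0
    have h1 := h 1
    have h2 := h 2
    have h3 := h 3
    simp only [crd, Matrix.cons_val] at h0 h1 h2 h3
    rcases x with ⟨⟨a, b⟩, ⟨c, d⟩⟩
    simp_all
  · rintro rfl d
    fin_cases d <;> rfl

theorem crd_sub (x y : F4 × F4) (d : Fin 4) : crd (x - y) d = crd x d - crd y d := by
  fin_cases d <;> rfl

theorem crd_add (x y : F4 × F4) (d : Fin 4) : crd (x + y) d = crd x d + crd y d := by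
  fin_cases d <;> rfl

theorem balanced_step (p q t u s : M3) (h1 : p ⊔ q = q ⊔ t) (h2 : q ⊔ t = p ⊔ t) (x y : F4)
    (hu : u = match s with | .bot => ⊥ | .a => p | .b => q | .c => t | .top => p ⊔ q) :
    (∀ d, ker3 s ((crd (G1 p q t x) d, crd (G2 p q t x) d) -
      (crd (G1 p q t y) d, crd (G2 p q t y) d))) ↔ ker3 u (x - y) := by
  obtain ⟨k1, k2, k3⟩ := G_ker p q t h1 h2 (x - y)
  have e : ∀ d, ((crd (G1 p q t x) d, crd (G2 p q t x) d) -
      (crd (G1 p q t y) d, crd (G2 p q t y) d) : F4) =
      (crd (G1 p q t (x - y)) d, crd (G2 p q t (x - y)) d) := by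
    intro d
    rw [G1_sub, G2_sub, crd_sub, crd_sub]
    rfl
  simp only [e]
  subst hu
  cases s with
  | bot => simp [ker3]
  | a =>
    show (∀ d, crd (G1 p q t (x - y)) d = 0) ↔ _
    rw [crd_eq_zero, k1]
  | b =>
    show (∀ d, crd (G2 p q t (x - y)) d = 0) ↔ _
    rw [crd_eq_zero, k2]
  | c =>
    show (∀ d, crd (G1 p q t (x - y)) d + crd (G2 p q t (x - y)) d = 0) ↔ _
    simp only [← crd_add]
    rw [crd_eq_zero, k3]
  | top =>
    show (∀ d, ((crd (G1 p q t (x - y)) d, crd (G2 p q t (x - y)) d) : F4) = 0) ↔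
      ker3 (p ⊔ q) (x - y)
    rw [ker3_sup, ← k1, ← k2, ← crd_eq_zero, ← crd_eq_zero]
    simp only [Prod.ext_iff, forall_and]
    rfl

theorem ker3_finset_sup {α : Type} (s : Finset α) (h : α → M3) (x : F4) :
    ker3 (s.sup h) x ↔ ∀ i ∈ s, ker3 (h i) x := by
  classical
  induction s using Finset.induction_on with
  | empty => simp [ker3_bot]
  | insert i s _ ih =>
    rw [Finset.sup_insert, ker3_sup, ih]
    simp

theorem sup_single {K : ℕ} (s : Fin K → M3) :
    (Finset.univ.sup fun i => (Function.update ⊥ i (s i) : Fin K → M3)) = s := by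
  classical
  apply le_antisymm
  · refine Finset.sup_le fun i _ j => ?_
    by_cases h : j = i
    · subst h; simp
    · simp [Function.update_of_ne h]
  · intro j
    have h1 : (Function.update ⊥ j (s j) : Fin K → M3) ≤
        Finset.univ.sup fun i => (Function.update ⊥ i (s i) : Fin K → M3) :=
      Finset.le_sup (f := fun i => (Function.update ⊥ i (s i) : Fin K → M3)) (Finset.mem_univ j)
    have := h1 j
    rwa [Function.update_self] at this

theorem finset_sup_apply' {K : ℕ} {α : Type} (s : Finset α) (h : α → Fin K → M3) (j : Fin K) :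
    (s.sup h) j = s.sup fun i => h i j := Finset.sup_apply s h j

theorem update_sup {K : ℕ} (i : Fin K) (x y : M3) :
    (Function.update ⊥ i (x ⊔ y) : Fin K → M3) = Function.update ⊥ i x ⊔ Function.update ⊥ i y := by
  classical
  funext j
  by_cases h : j = i
  · subst h; simp
  · simp [Function.update_of_ne h]

/-- the map of words which represents a homomorphism -/
def gmap {K K' : ℕ} (f : SupBotHom (Fin K → M3) (Fin K' → M3)) {I : Type}
    (w : I → Fin K' → F4) : I × Fin K' × Fin 4 → Fin K → F4 := fun t i =>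
  (crd (G1 (f (Function.update ⊥ i .a) t.2.1) (f (Function.update ⊥ i .b) t.2.1)
      (f (Function.update ⊥ i .c) t.2.1) (w t.1 t.2.1)) t.2.2,
    crd (G2 (f (Function.update ⊥ i .a) t.2.1) (f (Function.update ⊥ i .b) t.2.1)
      (f (Function.update ⊥ i .c) t.2.1) (w t.1 t.2.1)) t.2.2)

theorem gmap_rel {K K' : ℕ} (f : SupBotHom (Fin K → M3) (Fin K' → M3)) {I : Type}
    (s : Fin K → M3) (w w' : I → Fin K' → F4) : Rel s (gmap f w) (gmap f w') ↔ Rel (f s) w w' := by
  classical
  have hab : ∀ i : Fin K, f (Function.update ⊥ i .a) ⊔ f (Function.update ⊥ i .b) =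
      f (Function.update ⊥ i ⊤) := fun i => by
    rw [← map_sup, ← update_sup]; rfl
  have hbc : ∀ i : Fin K, f (Function.update ⊥ i .b) ⊔ f (Function.update ⊥ i .c) =
      f (Function.update ⊥ i ⊤) := fun i => by
    rw [← map_sup, ← update_sup]; rfl
  have hac : ∀ i : Fin K, f (Function.update ⊥ i .a) ⊔ f (Function.update ⊥ i .c) =
      f (Function.update ⊥ i ⊤) := fun i => by
    rw [← map_sup, ← update_sup]; rfl
  have key : ∀ (t : I) (j : Fin K') (i : Fin K),
      (∀ d : Fin 4, ker3 (s i) (gmap f w (t, j, d) i - gmap f w' (t, j, d) i)) ↔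
        ker3 (f (Function.update ⊥ i (s i)) j) (w t j - w' t j) := by
    intro t j i
    have e1 : f (Function.update ⊥ i M3.a) j ⊔ f (Function.update ⊥ i M3.b) j =
        f (Function.update ⊥ i M3.b) j ⊔ f (Function.update ⊥ i M3.c) j := by
      have h1 := congrFun (hab i) j
      have h2 := congrFun (hbc i) j
      exact h1.trans h2.symm
    have e2 : f (Function.update ⊥ i M3.b) j ⊔ f (Function.update ⊥ i M3.c) j =
        f (Function.update ⊥ i M3.a) j ⊔ f (Function.update ⊥ i M3.c) j := by
      have h1 := congrFun (hac i) j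
      have h2 := congrFun (hbc i) j
      exact h2.trans h1.symm
    have e3 : f (Function.update ⊥ i (s i)) j = match s i with
        | .bot => ⊥
        | .a => f (Function.update ⊥ i M3.a) j
        | .b => f (Function.update ⊥ i M3.b) j
        | .c => f (Function.update ⊥ i M3.c) j
        | .top => f (Function.update ⊥ i M3.a) j ⊔ f (Function.update ⊥ i M3.b) j := by
      cases s i with
      | bot =>
        have : (Function.update ⊥ i M3.bot : Fin K → M3) = ⊥ := Function.update_eq_self_iff.2 rfl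
        rw [this, map_bot]
        rfl
      | a => rfl
      | b => rfl
      | c => rfl
      | top => exact (congrFun (hab i) j).symm
    exact balanced_step _ _ _ _ (s i) e1 e2 (w t j) (w' t j) e3
  have hs : ∀ j : Fin K', f s j = Finset.univ.sup fun i => f (Function.update ⊥ i (s i)) j := by
    intro j
    conv_lhs => rw [← sup_single s]
    rw [map_finset_sup, finset_sup_apply']
    rfl
  constructor
  · intro h t j
    rw [hs, ker3_finset_sup]
    intro i _
    rw [← key]
    intro d
    exact h (t, j, d) i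
  · rintro h ⟨t, j, d⟩ i
    have h1 := h t j
    rw [hs, ker3_finset_sup] at h1
    exact (key t j i).2 (h1 i (Finset.mem_univ i)) d

/-- **The combinatorial step.** -/
theorem comb {K K' : ℕ} (f : SupBotHom (Fin K → M3) (Fin K' → M3)) (m : ℕ) :
    ∃ n : ℕ, ∀ E : Setoid (Fin n → Fin K → F4),
      ∃ (r : Fin K → M3) (g : (Fin m → Fin K' → F4) → (Fin n → Fin K → F4)),
        (∀ s w w', Rel s (g w) (g w') ↔ Rel (f s) w w') ∧
        ∀ w w', E (g w) (g w') ↔ Rel (f r) w w' := by
  obtain ⟨B, hB, hcan⟩ := canonical (R := Fin K → ZMod 2) (V := Fin K → F4)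
    (Fin m × Fin K' × Fin 4)
  cases nonempty_fintype B
  refine ⟨Fintype.card B, fun E => ?_⟩
  obtain ⟨h, H, hgood, hker⟩ := hcan (E.comap fun u => u ∘ (Fintype.equivFin B).symm)
  obtain ⟨r, rfl⟩ := exists_toSub H
  refine ⟨r, fun w => h (gmap f w) ∘ (Fintype.equivFin B).symm, ?_, ?_⟩
  · intro s w w'
    rw [← gmap_rel, rel_iff, rel_iff, ← hgood (toSub s)]
    constructor
    · intro h1 j
      have := h1 (Fintype.equivFin B j)
      simpa using this
    · intro h1 j
      exact h1 _
  · intro w w'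
    rw [← gmap_rel, rel_iff, ← hker]
    rfl

end Run7.h696
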