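import Pool.Agent.Run7.h696.Iso

/-!
Cofinality of the extension, and the passage from models of the axioms of Peano arithmetic to
`PAModel`.
-/

set_option autoImplicit false

universe u v w

namespace Run7.h696

open FirstOrder FirstOrder.Language Pool.Agent.Helper687.Arith

section cof

variable {M : Type u} [PAModel M]

theorem exists_bound {F : M → M} (hF : Df F) (b : M) : ∃ m, ∀ x, x < b → F x ≤ m := by
  refine ind (P := fun b => ∃ m, ∀ x, x < b → F x ≤ m) ?_ ?_ ?_ b
  · apply Def.ex
    apply Def.all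
    apply Def.imp
    · exact Def.lt (DefF.var 0) (DefF.var 2)
    · exact Def.le (DefF_comp hF (DefF.var 0)) (DefF.var 1)
  · exact ⟨0, fun x hx => absurd hx (not_lt.mpr zero_le)⟩
  · rintro b ⟨m, hm⟩
    refine ⟨max m (F b), fun x hx => ?_⟩
    rcases lt_succ_iff'.mp hx with h | rfl
    · exact (hm x h).trans (le_max_left _ _)
    · exact le_max_right _ _

variable {L : Type v} [CompleteLattice L] (S : Sys (WithTop L))
  (τ : Tower M S.K S.f) {U : Ultrafilter M}

theorem funMap_add {N : Type u} [LA.Structure N] (K : LA.ElementarySubstructure N) (y z : K) :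
    ((Structure.funMap (L := LA) (ArithFunc.add : LA.Functions 2) ![y, z] : K) : N) =
      Structure.funMap (L := LA) (ArithFunc.add : LA.Functions 2) ![(y : N), (z : N)] := by
  have h := K.subtype.map_fun (ArithFunc.add : LA.Functions 2) ![y, z]
  refine h.trans ?_
  congr 1
  funext i
  fin_cases i <;> rfl

theorem funMap_cl (F G : M → M) :
    Structure.funMap (L := LA) (ArithFunc.add : LA.Functions 2) ![cl U F, cl U G] =
      cl U (fun x => F x + G x) := by
  have h := Ultraproduct.funMap_cast (L := LA) (M := fun _ : M => M) (u := U)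
    (ArithFunc.add : LA.Functions 2) ![F, G]
  refine Eq.trans ?_ (h.trans ?_)
  · congr 1
    funext i
    fin_cases i <;> rfl
  · rfl

theorem cofinal (hU : ∀ n, τ.X n ∈ U) (y : Ext S τ U) : ∃ (x : M) (z : Ext S τ U),
    Structure.funMap (L := LA) (ArithFunc.add : LA.Functions 2) ![y, z] = emb S τ U x := by
  obtain ⟨F, hF, hy, hs⟩ := y.2
  obtain ⟨m, hm⟩ := exists_bound hF (bd (S.K 0) (τ.c 0))
  let G : M → M := fun x => the (fun z => F x + z = m)
  have hG : Df G := by
    apply DefF.the
    exact Def.eq (DefF.add (DefF_comp hF (DefF.var 1)) (DefF.var 0)) (DefF.const m)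
  have hle : sv S τ G ≤ sv S τ F := by
    have := sv_le_of S τ (fun _ : Unit => F) (fun _ => hF) hG 0 (by
      intro x hx x' hx' h
      show the (fun z => F x + z = m) = the (fun z => F x' + z = m)
      rw [h ()])
    simpa using this
  have hmem : cl U G ∈ Ext S τ U := ⟨G, hG, rfl, ne_top_of_le_ne_top hs hle⟩
  refine ⟨m, ⟨cl U G, hmem⟩, Subtype.ext ?_⟩
  rw [funMap_add]
  show Structure.funMap (L := LA) (ArithFunc.add : LA.Functions 2) ![(y : Ms U), cl U G] = cl U (fun _ => m)
  rw [← hy, funMap_cl, cl_eq]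
  filter_upwards [hU 0] with x hx
  obtain ⟨w, hw, hwx⟩ := hx
  rw [τ.J0] at hwx
  subst hwx
  obtain ⟨z, hz⟩ := exists_add_of_le (hm w hw)
  exact the_spec (P := fun z => F w + z = m) ⟨z, hz.symm, fun z' hz' =>
    add_left_cancel (a := F w) (hz'.trans hz)⟩

theorem countable_Ext [Countable M] (U : Ultrafilter M) : Countable (Ext S τ U) := by
  have := countable_Df M
  have h1 : ∀ q : Ext S τ U, ∃ F : {F : M → M // Df F}, cl U F.1 = (q : Ms U) := by
    intro q
    obtain ⟨F, hF, h, _⟩ := q.2
    exact ⟨⟨F, hF⟩, h⟩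
  choose g hg using h1
  have hinj : Function.Injective g := by
    intro q q' h
    apply Subtype.ext
    rw [← hg q, ← hg q', h]
  exact hinj.countable

theorem exists_ext' {L : Type v} [CompleteLattice L] [IsCompactlyGenerated L]
    (hV : InVarietyM3 L) (hcount : {x : L | IsCompactElement x}.Countable)
    {M : Type u} [PAModel M] [Countable M] (hns : ∃ c : M, Nonstd c) :
    ∃ (N : Type u) (_ : LA.Structure N) (f : M ↪ₑ[LA] N), Countable N ∧
      (∀ y : N, ∃ (x : M) (z : N),
        Structure.funMap (L := LA) (ArithFunc.add : LA.Functions 2) ![y, z] = f x) ∧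
      Nonempty ({K : LA.ElementarySubstructure N // Set.range f ⊆ (K : Set N)} ≃o L) := by
  obtain ⟨S, h1, h2⟩ := exists_Sys hV hcount
  obtain ⟨τ⟩ := exists_tower hns S.K S.f
  obtain ⟨U, hU⟩ := exists_ultra S τ
  refine ⟨Ext S τ U, inferInstance, emb S τ U, countable_Ext S τ U, cofinal S τ hU,
    ⟨OrderIso.symm ?_⟩⟩
  refine RelIso.ofSurjective (OrderEmbedding.ofMapLEIff
    (fun l => (⟨Kl S τ U l, range_emb_subset S τ l⟩ :
      {K : LA.ElementarySubstructure (Ext S τ U) // Set.range (emb S τ U) ⊆ (K : Set _)}))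
    (fun l l' => Kl_le_iff S τ hU h1 l l')) ?_
  rintro ⟨K, hK⟩
  obtain ⟨l, hl⟩ := Kl_surj S τ hU h2 K hK
  exact ⟨l, Subtype.ext hl⟩

end cof

theorem exists_PAModel (M : Type u) [inst : LA.Structure M] [hPA : M ⊨ PA] :
    ∃ i : PAModel M, @standard M i.toCommSemiring = inst := by
  let i1 : CommSemiring M := rawSemiring M
  let i2 : LinearOrder M := rawOrder M
  have hle : ∀ x y : M, x ≤ y ↔ ∃ z, x + z = y := fun x y => Iff.rfl
  have hcanc : ∀ {x y z : M}, x + z = y + z → x = y := fun {x y z} h => ra_cancel h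
  have hlt : ∀ x y : M, x < y ↔ ∃ z, x + (z + 1) = y := by
    intro x y
    rw [lt_iff_le_and_ne, hle]
    constructor
    · rintro ⟨⟨z, rfl⟩, hne⟩
      rcases cases_rs z with h | ⟨w, rfl⟩
      · exfalso
        apply hne
        rw [h]
        exact (ra_rz x).symm
      · exact ⟨w, by show ra x (ra w (rs rz)) = ra x (rs w); rw [ra_one]⟩
    · rintro ⟨z, rfl⟩
      refine ⟨⟨z + 1, rfl⟩, fun h => ?_⟩
      have h1 : (z + 1) + x = 0 + x := by rw [add_comm, ← h, zero_add]
      have h2 : z + 1 = 0 := hcanc h1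
      have h3 : ra z (rs rz) = rz := h2
      rw [ra_one] at h3
      exact rs_ne _ h3
  have i3 : IsOrderedCancelAddMonoid M := {
    add_le_add_left := by
      rintro x y ⟨z, rfl⟩ w
      exact ⟨z, by show x + w + z = x + z + w; ring⟩
    le_of_add_le_add_left := by
      rintro x y z ⟨w, h⟩
      refine ⟨w, ?_⟩
      have h1 : x + y + w = x + z := h
      have h2 : (y + w) + x = z + x := by rw [add_comm z x, ← h1]; ring
      exact hcanc h2 }
  have i4 : IsStrictOrderedRing M := {
    i3 with
    zero_le_one := ⟨1, by show (0 : M) + 1 = 1; rw [zero_add]⟩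
    exists_pair_ne := ⟨0, 1, fun h => rs_ne (rz : M) h.symm⟩
    mul_lt_mul_of_pos_left := by
      intro a ha b c hbc
      obtain ⟨z, rfl⟩ := (hlt _ _).mp hbc
      obtain ⟨a', rfl⟩ := (hlt _ _).mp ha
      show (0 + (a' + 1)) * b < (0 + (a' + 1)) * (b + (z + 1))
      rw [hlt]
      exact ⟨a' * z + a' + z, by ring⟩
    mul_lt_mul_of_pos_right := by
      intro a ha b c hbc
      obtain ⟨z, rfl⟩ := (hlt _ _).mp hbc
      obtain ⟨a', rfl⟩ := (hlt _ _).mp ha
      show b * (0 + (a' + 1)) < (b + (z + 1)) * (0 + (a' + 1))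
      rw [hlt]
      exact ⟨a' * z + a' + z, by ring⟩ }
  have i5 : CanonicallyOrderedAdd M := {
    exists_add_of_le := by
      rintro x y ⟨z, rfl⟩
      exact ⟨z, rfl⟩
    le_add_self := fun x y => ⟨y, add_comm _ _⟩
    le_self_add := fun x y => ⟨y, rfl⟩ }
  have hst : @standard M i1 = inst := standard_rawSemiring M
  let i6 : PAModel M := {
    i1, i2, i4, i5 with
    lt_add_one_iff' := by
      intro x y
      rw [hlt, hle]
      constructor
      · rintro ⟨z, h⟩
        exact ⟨z, hcanc (z := 1) (by rw [← h]; ring)⟩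
      · rintro ⟨z, rfl⟩
        exact ⟨z, by ring⟩
    ind' := by
      intro P hP h0 hs x
      have hP' : @Def M inst (fun v => P (v 0)) := by
        rw [← hst]
        exact hP
      refine raw_ind (P := P) hP' h0 (fun x hx => ?_) x
      have := hs x hx
      rwa [show x + 1 = rs x from ra_one x] at this }
  exact ⟨i6, hst⟩

theorem exists_Nonstd {M : Type u} [PAModel M] (h : IsEmpty (M ≃[LA] ℕ)) : ∃ c : M, Nonstd c := by
  by_contra hno
  push Not at hno
  have hsurj : Function.Surjective (Nat.cast : ℕ → M) := by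
    intro x
    have h1 := hno x
    unfold Nonstd at h1
    push Not at h1
    obtain ⟨n, hn⟩ := h1
    have h2 : x < ((n + 1 : ℕ) : M) := by
      rw [Nat.cast_succ]
      exact lt_succ_iff.mpr hn
    obtain ⟨k, _, hk⟩ := std_of_lt (n + 1) x h2
    exact ⟨k, hk.symm⟩
  have hinj : Function.Injective (Nat.cast : ℕ → M) := fun m n h => natCast_inj.1 h
  let e : ℕ ≃ M := Equiv.ofBijective _ ⟨hinj, hsurj⟩
  let E : ℕ ≃[LA] M :=
    { e with
      map_fun' := by
        intro n f x
        cases (f : ArithFunc n) with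
        | zero => exact Nat.cast_zero
        | succ => exact Nat.cast_succ _
        | add => exact Nat.cast_add _ _
        | mul => exact Nat.cast_mul _ _
      map_rel' := fun r _ => (r : Empty).elim }
  exact h.false E.symm

theorem main {L : Type v} [CompleteLattice L] [IsCompactlyGenerated L]
    (hV : InVarietyM3 L) (hcount : {x : L | IsCompactElement x}.Countable)
    {M : Type u} [inst : LA.Structure M] [hPA : M ⊨ PA] [Countable M]
    (hns : IsEmpty (M ≃[LA] ℕ)) :
    ∃ (N : Type u) (_ : LA.Structure N) (f : M ↪ₑ[LA] N), Countable N ∧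
      (∀ y : N, ∃ (x : M) (z : N),
        Structure.funMap (L := LA) (ArithFunc.add : LA.Functions 2) ![y, z] = f x) ∧
      Nonempty ({K : LA.ElementarySubstructure N // Set.range f ⊆ (K : Set N)} ≃o L) := by
  obtain ⟨i, hi⟩ := exists_PAModel M
  subst hi
  exact exists_ext' hV hcount (exists_Nonstd hns)

end Run7.h696
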