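import Pool.Agent.Run7.h696.Ultra

/-!
Closure of elementary substructures of the ultrapower under definable functions.
-/

set_option autoImplicit false

universe u v w

namespace Run7.h696

open FirstOrder FirstOrder.Language Pool.Agent.Helper687.Arith

section tvres

variable {N : Type u} [LA.Structure N]

theorem TV_restrict {P Q : Set N} (hP : TV P) (hQ : TV Q) (hQP : Q ⊆ P) :
    TV {q : ↥(ofTV P hP) | (q : N) ∈ Q} := by
  intro n φ x hx a ha
  have key : ∀ b : ↥(ofTV P hP), φ.Realize default (Fin.snoc x b : Fin (n + 1) → ↥(ofTV P hP)) ↔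
      φ.Realize default (Fin.snoc (fun i => (x i : N)) (b : N) : Fin (n + 1) → N) := by
    intro b
    have h1 := (ofTV P hP).subtype.map_boundedFormula φ default (Fin.snoc x b)
    have e1 : ((ofTV P hP).subtype ∘ (default : Empty → _)) = (default : Empty → N) :=
      Subsingleton.elim _ _
    have e2 : ((ofTV P hP).subtype ∘ (Fin.snoc x b : Fin (n + 1) → ↥(ofTV P hP))) =
        (Fin.snoc (fun i => (x i : N)) (b : N) : Fin (n + 1) → N) := by
      funext j
      refine Fin.lastCases ?_ (fun j => ?_) j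
      · simp
      · simp
    rw [e1, e2] at h1
    exact h1.symm
  obtain ⟨b, hb, h1⟩ := hQ n φ (fun i => (x i : N)) hx a ((key a).1 ha)
  exact ⟨⟨b, hQP hb⟩, hb, (key _).2 h1⟩

end tvres

section dc

variable {M : Type u} [PAModel M] {U : Ultrafilter M}

theorem dcl {A : Type w} [LA.Structure A] (e : A ↪ₑ[LA] Ms U)
    (he : ∀ m : M, ∃ a, e a = cl U (fun _ => m)) (X : Set M) (hX : Def (fun v => v 0 ∈ X))
    (hXU : X ∈ U) {n : ℕ} (F : Fin n → M → M) (hF : ∀ i, Df (F i))
    (hFe : ∀ i, ∃ a, e a = cl U (F i)) {B : M → M} (hB : Df B)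
    (h : ∀ x ∈ X, ∀ x' ∈ X, (∀ i, F i x = F i x') → B x = B x') : ∃ a, e a = cl U B := by
  classical
  -- the formula
  have hDef : Def (fun v : ℕ → M => ∃ x, x ∈ X ∧ (∀ i : Fin n, F i x = v (i + 1)) ∧
      B x = v 0) := by
    apply Def.ex
    apply Def.and
    · exact hX
    · apply Def.and
      · apply Def_forall_fin
        intro i
        exact Def.eq (DefF_comp (hF i) (DefF.var 0)) (DefF.var _)
      · exact Def.eq (DefF_comp hB (DefF.var 0)) (DefF.var _)
  obtain ⟨θ, hθ⟩ := hDef
  let g : M ⊕ ℕ → (M ⊕ ℕ) ⊕ Unit := fun s => match s with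
    | Sum.inl m => Sum.inl (Sum.inl m)
    | Sum.inr 0 => Sum.inr ()
    | Sum.inr (k + 1) => Sum.inl (Sum.inr k)
  let ψ : LA.Formula (M ⊕ ℕ) := (θ.relabel g).iExs Unit
  choose c hc using he
  choose a ha using hFe
  let p : M ⊕ ℕ → A := Sum.elim c (fun k => if hk : k < n then a ⟨k, hk⟩ else c 0)
  let V : (M → M) → M ⊕ ℕ → M → M := fun G s => match s with
    | Sum.inl m => fun _ => m
    | Sum.inr 0 => G
    | Sum.inr (k + 1) => if hk : k < n then F ⟨k, hk⟩ else fun _ => 0
  have hV : ∀ (G : M → M) (q : Unit → A), e (q ()) = cl U G →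
      (e ∘ (Sum.elim p q ∘ g)) = fun s => cl U (V G s) := by
    intro G q hq
    funext s
    match s with
    | Sum.inl m => exact hc m
    | Sum.inr 0 => exact hq
    | Sum.inr (k + 1) =>
      show e (if hk : k < n then a ⟨k, hk⟩ else c 0) =
        cl U (if hk : k < n then F ⟨k, hk⟩ else fun _ => 0)
      by_cases hk : k < n
      · rw [dif_pos hk, dif_pos hk, ha]
      · rw [dif_neg hk, dif_neg hk, hc]
  have hV' : ∀ (G : M → M) , (Sum.elim (e ∘ p) (fun _ => cl U G) ∘ g) =
      fun s => cl U (V G s) := by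
    intro G
    funext s
    match s with
    | Sum.inl m => exact hc m
    | Sum.inr 0 => rfl
    | Sum.inr (k + 1) =>
      show e (if hk : k < n then a ⟨k, hk⟩ else c 0) =
        cl U (if hk : k < n then F ⟨k, hk⟩ else fun _ => 0)
      by_cases hk : k < n
      · rw [dif_pos hk, dif_pos hk, ha]
      · rw [dif_neg hk, dif_neg hk, hc]
  have hVe : ∀ (G : M → M) (y : M), (fun s => V G s y) = Sum.elim id (fun k => V G (Sum.inr k) y) := by
    intro G y
    funext s
    match s with
    | Sum.inl m => rfl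
    | Sum.inr k => rfl
  have hVF : ∀ (G : M → M) (i : Fin n) (y : M), V G (Sum.inr (i + 1)) y = F i y := by
    intro G i y
    show (if hk : (i : ℕ) < n then F ⟨i, hk⟩ else fun _ => 0) y = _
    rw [dif_pos i.2]
  have h1 : ψ.Realize (e ∘ p) := by
    rw [Formula.realize_iExs]
    refine ⟨fun _ => cl U B, ?_⟩
    rw [Formula.realize_relabel, hV', los_formula]
    filter_upwards [hXU] with y hy
    rw [hVe, hθ]
    exact ⟨y, hy, fun i => (hVF B i y).symm, rfl⟩
  have h2 : ψ.Realize p := (e.map_formula ψ p).1 h1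
  rw [Formula.realize_iExs] at h2
  obtain ⟨q, hq⟩ := h2
  rw [Formula.realize_relabel] at hq
  have h3 := (e.map_formula θ _).2 hq
  obtain ⟨G, hG⟩ := cl_surj U (e (q ()))
  rw [hV G q hG.symm, los_formula] at h3
  refine ⟨q (), ?_⟩
  rw [← hG, cl_eq]
  filter_upwards [h3, hXU] with y hy hyX
  rw [hVe, hθ] at hy
  obtain ⟨x, hx, hx1, hx2⟩ := hy
  have h4 : B x = B y := h x hx y hyX (fun i => (hx1 i).trans (hVF G i y))
  exact (h4.symm.trans hx2).symm

end dc

end Run7.h696
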