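import Mathlib

/-!
The lattice `M₃`, lattice terms and identities, and the variety generated by `M₃`.
-/

set_option autoImplicit false

universe u v

namespace Run7.h696

/-- The five elements of the lattice `M₃`: bottom, three atoms and top. -/
inductive M3 : Type
  | bot
  | a
  | b
  | c
  | top
  deriving DecidableEq, Fintype

namespace M3

/-- `x ≤ y` in `M₃` if `x = y` or `x` is the bottom or `y` is the top (so that the three atoms are
pairwise incomparable). -/
instance : LE M3 := ⟨fun x y => x = y ∨ x = bot ∨ y = top⟩

instance (x y : M3) : Decidable (x ≤ y) :=
  inferInstanceAs (Decidable (x = y ∨ x = bot ∨ y = top))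

/-- The lattice structure of `M₃`: two incomparable elements have join top and meet bottom. -/
instance : Lattice M3 where
  le_refl := by decide
  le_trans := by decide
  le_antisymm := by decide
  sup := fun x y => if x ≤ y then y else if y ≤ x then x else top
  inf := fun x y => if x ≤ y then x else if y ≤ x then y else bot
  le_sup_left := by decide
  le_sup_right := by decide
  sup_le := by decide
  inf_le_left := by decide
  inf_le_right := by decide
  le_inf := by decide

instance : BoundedOrder M3 where
  bot := bot
  bot_le := by decide
  top := top
  le_top := by decide

end M3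

/-- Lattice terms in the variables `x_0, ..., x_{n-1}`. -/
inductive LTerm (n : ℕ) : Type
  | var (i : Fin n) : LTerm n
  | join (s t : LTerm n) : LTerm n
  | meet (s t : LTerm n) : LTerm n

/-- The value of a lattice term in the lattice `L` at `v_0, ..., v_{n-1}`. -/
def LTerm.eval {n : ℕ} {L : Type u} [Lattice L] (v : Fin n → L) : LTerm n → L
  | .var i => v i
  | .join s t => s.eval v ⊔ t.eval v
  | .meet s t => s.eval v ⊓ t.eval v

/-- `L` belongs to the variety generated by `M₃`: every lattice identity `s = t` (in any number `n`
of variables) which holds in `M₃` holds in `L`. -/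
def InVarietyM3 (L : Type u) [Lattice L] : Prop :=
  ∀ (n : ℕ) (s t : LTerm n), (∀ v : Fin n → M3, s.eval v = t.eval v) →
    ∀ v : Fin n → L, s.eval v = t.eval v

end Run7.h696
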