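import Pool.Agent.Run7.h696.Tower

/-!
The value (in the limit of the direct system) of a definable function.
-/

set_option autoImplicit false

universe u v

namespace Run7.h696

open FirstOrder FirstOrder.Language Pool.Agent.Helper687.Arith

section

variable {M : Type u} [PAModel M] {T : Type v} [SemilatticeSup T] [OrderBot T] (S : Sys T)
  (τ : Tower M S.K S.f)

theorem Ty_up {n m : ℕ} (h : n ≤ m) {F : M → M} {r : Fin (S.K n) → M3} (hr : τ.Ty n F r) :
    ∃ r', τ.Ty m F r' ∧ S.φ m r' = S.φ n r := by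
  induction m, h using Nat.le_induction with
  | base => exact ⟨r, hr, rfl⟩
  | succ m _ ih =>
    obtain ⟨r', h1, h2⟩ := ih
    exact ⟨S.f m r', τ.Ty_succ h1, by rw [S.comm, h2]⟩

theorem exists_value {F : M → M} (hF : Df F) : ∃ (t : T) (n : ℕ), ∀ m, n ≤ m →
    ∃ r, τ.Ty m F r ∧ S.φ m r = t := by
  obtain ⟨n, r, hr⟩ := τ.dec F hF
  exact ⟨S.φ n r, n, fun m hm => Ty_up S τ hm hr⟩

open Classical in
/-- the value of a definable function -/
noncomputable def sv (F : M → M) : T := if h : Df F then (exists_value S τ h).choose else ⊥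

theorem sv_stage {F : M → M} (hF : Df F) : ∃ n : ℕ, ∀ m, n ≤ m →
    ∃ r, τ.Ty m F r ∧ S.φ m r = sv S τ F := by
  unfold sv
  rw [dif_pos hF]
  exact (exists_value S τ hF).choose_spec

theorem sv_eq {F : M → M} (hF : Df F) {n : ℕ} {r : Fin (S.K n) → M3} (hr : τ.Ty n F r) :
    sv S τ F = S.φ n r := by
  obtain ⟨n', h'⟩ := sv_stage S τ hF
  obtain ⟨r', h1, h2⟩ := h' (max n n') (le_max_right _ _)
  obtain ⟨r'', h3, h4⟩ := Ty_up S τ (le_max_left n n') hr
  rw [← h2, ← h4, τ.Ty_uniq h1 h3]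

theorem sv_le_of {ι : Type} [Fintype ι] (F : ι → M → M) (hF : ∀ i, Df (F i)) {B : M → M}
    (hB : Df B) (m : ℕ)
    (h : ∀ x ∈ τ.X m, ∀ x' ∈ τ.X m, (∀ i, F i x = F i x') → B x = B x') :
    sv S τ B ≤ Finset.univ.sup fun i => sv S τ (F i) := by
  choose n hn using fun i => sv_stage S τ (hF i)
  obtain ⟨n', hn'⟩ := sv_stage S τ hB
  let k := max (max m n') (Finset.univ.sup n)
  have hk1 : m ≤ k := (le_max_left _ _).trans (le_max_left _ _)
  have hk2 : n' ≤ k := (le_max_right _ _).trans (le_max_left _ _)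
  have hk3 : ∀ i, n i ≤ k := fun i => (Finset.le_sup (Finset.mem_univ i)).trans (le_max_right _ _)
  choose r hr1 hr2 using fun i => hn i k (hk3 i)
  obtain ⟨r', hr1', hr2'⟩ := hn' k hk2
  have hle : r' ≤ Finset.univ.sup r := by
    apply rel_order (τ.hc k)
    intro w w' hw hw' hrel
    rw [RelM_finset_sup] at hrel
    refine (hr1' w w' hw hw').1 (h _ (τ.X_anti hk1 ⟨w, hw, rfl⟩) _ (τ.X_anti hk1 ⟨w', hw', rfl⟩) ?_)
    intro i
    exact (hr1 i w w' hw hw').2 (hrel i (Finset.mem_univ i))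
  calc sv S τ B = S.φ k r' := hr2'.symm
    _ ≤ S.φ k (Finset.univ.sup r) := OrderHomClass.mono (S.φ k) hle
    _ = Finset.univ.sup fun i => S.φ k (r i) := by rw [map_finset_sup]; rfl
    _ = _ := by
      congr 1
      funext i
      exact hr2 i

theorem of_sv_le {F B : M → M} (hF : Df F) (hB : Df B) (h : sv S τ B ≤ sv S τ F) :
    ∃ m : ℕ, ∀ x ∈ τ.X m, ∀ x' ∈ τ.X m, F x = F x' → B x = B x' := by
  obtain ⟨n, hn⟩ := sv_stage S τ hF
  obtain ⟨n', hn'⟩ := sv_stage S τ hB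
  obtain ⟨r, hr1, hr2⟩ := hn (max n n') (le_max_left _ _)
  obtain ⟨r', hr1', hr2'⟩ := hn' (max n n') (le_max_right _ _)
  rw [← hr2, ← hr2'] at h
  have h1 := S.mono _ _ _ h
  have h2 := τ.Ty_succ hr1
  have h3 := τ.Ty_succ hr1'
  refine ⟨max n n' + 1, ?_⟩
  rintro _ ⟨w, hw, rfl⟩ _ ⟨w', hw', rfl⟩ he
  exact (h3 w w' hw hw').2 (RelM_mono h1 ((h2 w w' hw hw').1 he))

theorem of_sv_le_fin {ι : Type} [Fintype ι] (F : ι → M → M) (hF : ∀ i, Df (F i)) {B : M → M}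
    (hB : Df B) (h : sv S τ B ≤ Finset.univ.sup fun i => sv S τ (F i)) :
    ∃ m : ℕ, ∀ x ∈ τ.X m, ∀ x' ∈ τ.X m, (∀ i, F i x = F i x') → B x = B x' := by
  choose n hn using fun i => sv_stage S τ (hF i)
  obtain ⟨n', hn'⟩ := sv_stage S τ hB
  let k := max n' (Finset.univ.sup n)
  have hk2 : n' ≤ k := le_max_left _ _
  have hk3 : ∀ i, n i ≤ k := fun i => (Finset.le_sup (Finset.mem_univ i)).trans (le_max_right _ _)
  choose r hr1 hr2 using fun i => hn i k (hk3 i)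
  obtain ⟨r', hr1', hr2'⟩ := hn' k hk2
  have h0 : S.φ k r' ≤ S.φ k (Finset.univ.sup r) := by
    rw [hr2', map_finset_sup]
    refine h.trans (le_of_eq ?_)
    congr 1
    funext i
    exact (hr2 i).symm
  have h1 := S.mono _ _ _ h0
  rw [map_finset_sup] at h1
  refine ⟨k + 1, ?_⟩
  rintro _ ⟨w, hw, rfl⟩ _ ⟨w', hw', rfl⟩ he
  refine (τ.Ty_succ hr1' w w' hw hw').2 (RelM_mono h1 ?_)
  rw [RelM_finset_sup]
  intro i _
  exact (τ.Ty_succ (hr1 i) w w' hw hw').1 (he i)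

theorem exists_sv (n : ℕ) (u : Fin (S.K n) → M3) : ∃ F : M → M, Df F ∧ sv S τ F = S.φ n u := by
  obtain ⟨F, hF, h⟩ := τ.exists_of_type S.top n u
  exact ⟨F, hF, sv_eq S τ hF h⟩

theorem sv_value {F : M → M} (hF : Df F) : ∃ (n : ℕ) (u : Fin (S.K n) → M3),
    sv S τ F = S.φ n u := by
  obtain ⟨n, hn⟩ := sv_stage S τ hF
  obtain ⟨r, _, h⟩ := hn n le_rfl
  exact ⟨n, r, h.symm⟩

end

end Run7.h696
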