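import Pool.Agent.Run7.h696.Lat2
import Pool.Agent.Run7.h696.Sv

/-!
The direct system for the compact elements of an algebraic lattice, with a new top element.
-/

set_option autoImplicit false

universe u v

namespace Run7.h696

variable {L : Type u} [CompleteLattice L]

open Classical in
/-- the extension of a map by a new coordinate -/
noncomputable def extφ {k : ℕ} (φ : SupBotHom (Fin k → M3) L) :
    SupBotHom (Fin (k + 1) → M3) (WithTop L) where
  toFun u := if u 0 = ⊥ then ((φ (Fin.tail u) : L) : WithTop L) else ⊤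
  map_sup' u v := by
    have e : Fin.tail (u ⊔ v) = Fin.tail u ⊔ Fin.tail v := rfl
    have e0 : (u ⊔ v) 0 = u 0 ⊔ v 0 := rfl
    by_cases hu : u 0 = ⊥ <;> by_cases hv : v 0 = ⊥
    · rw [if_pos hu, if_pos hv, if_pos (by rw [e0, hu, hv, sup_idem]), e, map_sup, WithTop.coe_sup]
    · rw [if_pos hu, if_neg hv, if_neg (by rw [e0, hu, bot_sup_eq]; exact hv), sup_top_eq]
    · rw [if_neg hu, if_pos hv, if_neg (by rw [e0, hv, sup_bot_eq]; exact hu), top_sup_eq]
    · rw [if_neg hu, if_neg hv, if_neg (by rw [e0, sup_eq_bot_iff]; exact fun h => hu h.1),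
        sup_idem]
  map_bot' := by
    have e : Fin.tail (⊥ : Fin (k + 1) → M3) = ⊥ := rfl
    have e0 : (⊥ : Fin (k + 1) → M3) 0 = ⊥ := rfl
    rw [if_pos e0, e, map_bot]
    rfl

theorem extφ_apply_bot {k : ℕ} (φ : SupBotHom (Fin k → M3) L) {u : Fin (k + 1) → M3}
    (hu : u 0 = ⊥) : extφ φ u = ((φ (Fin.tail u) : L) : WithTop L) := if_pos hu

theorem extφ_apply_top {k : ℕ} (φ : SupBotHom (Fin k → M3) L) {u : Fin (k + 1) → M3}
    (hu : u 0 ≠ ⊥) : extφ φ u = ⊤ := if_neg hu

open Classical in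
/-- the extension of a map by a new coordinate -/
noncomputable def extf {k l : ℕ} (f : SupBotHom (Fin k → M3) (Fin l → M3)) :
    SupBotHom (Fin (k + 1) → M3) (Fin (l + 1) → M3) where
  toFun u := if u 0 = ⊥ then Fin.cons ⊥ (f (Fin.tail u)) else ⊤
  map_sup' u v := by
    have e : Fin.tail (u ⊔ v) = Fin.tail u ⊔ Fin.tail v := rfl
    have e0 : (u ⊔ v) 0 = u 0 ⊔ v 0 := rfl
    by_cases hu : u 0 = ⊥ <;> by_cases hv : v 0 = ⊥
    · rw [if_pos hu, if_pos hv, if_pos (by rw [e0, hu, hv, sup_idem]), e, map_sup]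
      funext i
      refine Fin.cases ?_ (fun i => ?_) i
      · rw [Pi.sup_apply, Fin.cons_zero, Fin.cons_zero, Fin.cons_zero, sup_idem]
      · rw [Pi.sup_apply, Fin.cons_succ, Fin.cons_succ, Fin.cons_succ, Pi.sup_apply]
    · rw [if_pos hu, if_neg hv, if_neg (by rw [e0, hu, bot_sup_eq]; exact hv), sup_top_eq]
    · rw [if_neg hu, if_pos hv, if_neg (by rw [e0, hv, sup_bot_eq]; exact hu), top_sup_eq]
    · rw [if_neg hu, if_neg hv, if_neg (by rw [e0, sup_eq_bot_iff]; exact fun h => hu h.1),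
        sup_idem]
  map_bot' := by
    have e : Fin.tail (⊥ : Fin (k + 1) → M3) = ⊥ := rfl
    have e0 : (⊥ : Fin (k + 1) → M3) 0 = ⊥ := rfl
    rw [if_pos e0, e, map_bot]
    funext i
    refine Fin.cases ?_ (fun i => ?_) i
    · rw [Fin.cons_zero]
      rfl
    · rw [Fin.cons_succ]
      rfl

theorem extf_apply_bot {k l : ℕ} (f : SupBotHom (Fin k → M3) (Fin l → M3)) {u : Fin (k + 1) → M3}
    (hu : u 0 = ⊥) : extf f u = Fin.cons ⊥ (f (Fin.tail u)) := if_pos hu

theorem extf_apply_top {k l : ℕ} (f : SupBotHom (Fin k → M3) (Fin l → M3)) {u : Fin (k + 1) → M3}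
    (hu : u 0 ≠ ⊥) : extf f u = ⊤ := if_neg hu

theorem top_apply_ne {k : ℕ} : (⊤ : Fin (k + 1) → M3) 0 ≠ ⊥ := by
  show (⊤ : M3) ≠ ⊥
  decide

theorem exists_Sys [IsCompactlyGenerated L] (hV : InVarietyM3 L)
    (hcount : {x : L | IsCompactElement x}.Countable) :
    ∃ S : Sys (WithTop L), (∀ c : L, IsCompactElement c → ∃ n u, S.φ n u = (c : WithTop L)) ∧
      ∀ n u, S.φ n u = ⊤ ∨ ∃ c : L, IsCompactElement c ∧ S.φ n u = (c : WithTop L) := by
  obtain ⟨k, φ, f, h1, h2, h3, h4⟩ := exists_limit hV hcount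
  refine ⟨⟨fun n => k n + 1, fun n => extφ (φ n), fun n => extf (f n), ?_, ?_, ?_⟩, ?_, ?_⟩
  · intro n u
    by_cases hu : u 0 = ⊥
    · rw [extf_apply_bot _ hu, extφ_apply_bot _ hu, extφ_apply_bot _ (Fin.cons_zero _ _),
        Fin.tail_cons, h2]
    · rw [extf_apply_top _ hu, extφ_apply_top _ hu, extφ_apply_top _ top_apply_ne]
  · intro n u u' h
    by_cases hu' : u' 0 = ⊥
    · by_cases hu : u 0 = ⊥
      · rw [extφ_apply_bot _ hu, extφ_apply_bot _ hu', WithTop.coe_le_coe] at h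
        rw [extf_apply_bot _ hu, extf_apply_bot _ hu']
        intro i
        refine Fin.cases ?_ (fun i => ?_) i
        · rw [Fin.cons_zero, Fin.cons_zero]
        · rw [Fin.cons_succ, Fin.cons_succ]
          exact h4 n _ _ h i
      · rw [extφ_apply_top _ hu, extφ_apply_bot _ hu', top_le_iff] at h
        exact absurd h WithTop.coe_ne_top
    · rw [extf_apply_top _ hu']
      exact le_top
  · intro n
    exact extf_apply_top _ top_apply_ne
  · intro c hc
    obtain ⟨n, u, hu⟩ := h3 c hc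
    refine ⟨n, Fin.cons ⊥ u, ?_⟩
    show extφ (φ n) _ = _
    rw [extφ_apply_bot _ (Fin.cons_zero _ _), Fin.tail_cons, hu]
  · intro n u
    show extφ (φ n) u = _ ∨ ∃ c : L, IsCompactElement c ∧ extφ (φ n) u = _
    by_cases hu : u 0 = ⊥
    · right
      exact ⟨_, h1 n _, extφ_apply_bot _ hu⟩
    · left
      exact extφ_apply_top _ hu

end Run7.h696
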