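import Pool.Agent.Run7.h696.Dcl
import Pool.Agent.Run7.h696.Sys

/-!
The interstructure lattice of the extension.
-/

set_option autoImplicit false

universe u v w

namespace Run7.h696

open FirstOrder FirstOrder.Language Pool.Agent.Helper687.Arith

section iso

variable {L : Type v} [CompleteLattice L] {M : Type u} [PAModel M] (S : Sys (WithTop L))
  (τ : Tower M S.K S.f) {U : Ultrafilter M}

theorem Def_X (n : ℕ) : Def (fun v : ℕ → M => v 0 ∈ τ.X n) := by
  show Def (fun v : ℕ → M => ∃ w, w < bd (S.K n) (τ.c n) ∧ τ.J n w = v 0)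
  apply Def.ex
  apply Def.and
  · exact Def.lt (DefF.var 0) (DefF.const _)
  · exact Def.eq (DefF_comp (τ.hJ n) (DefF.var 0)) (DefF.var _)

variable (hU : ∀ n, τ.X n ∈ U)

include hU in
theorem sv_wd {F G : M → M} (hF : Df F) (hG : Df G) (h : cl U F = cl U G) :
    sv S τ F = sv S τ G := by
  rw [cl_eq, eventually_iff S τ hU (fun x => F x = G x) (Def.eq hF hG)] at h
  obtain ⟨n, hn⟩ := h
  apply le_antisymm
  · have := sv_le_of S τ (fun _ : Unit => G) (fun _ => hG) hF n (by
      intro x hx x' hx' h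
      rw [hn x hx, hn x' hx']
      exact h ())
    simpa using this
  · have := sv_le_of S τ (fun _ : Unit => F) (fun _ => hF) hG n (by
      intro x hx x' hx' h
      rw [← hn x hx, ← hn x' hx']
      exact h ())
    simpa using this

theorem sv_const (m : M) : sv S τ (fun _ => m) = ⊥ := by
  have := sv_le_of S τ (fun (i : Empty) => i.elim) (fun i => i.elim) (B := fun _ => m)
    (DefF.const m) 0 (fun _ _ _ _ _ => rfl)
  rw [← le_bot_iff]
  simpa using this

theorem IsId_ne_top : IsId {t : WithTop L | t ≠ ⊤} where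
  lower s t h ht := ne_top_of_le_ne_top ht h
  sup n f h := by
    have h1 : ∀ i, ∃ l : L, (l : WithTop L) = f i := fun i => WithTop.ne_top_iff_exists.1 (h i)
    choose g hg using h1
    have h2 : Finset.univ.sup f ≤ ((Finset.univ.sup g : L) : WithTop L) :=
      Finset.sup_le fun i hi => by
        rw [← hg i]
        exact WithTop.coe_le_coe.2 (Finset.le_sup hi)
    exact ne_top_of_le_ne_top WithTop.coe_ne_top h2

theorem IsId_le (l : L) : IsId {t : WithTop L | t ≤ (l : WithTop L)} where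
  lower s t h ht := h.trans ht
  sup n f h := show Finset.univ.sup f ≤ (l : WithTop L) from Finset.sup_le fun i _ => h i

/-- the extension -/
noncomputable abbrev Ext (U : Ultrafilter M) : LA.ElementarySubstructure (Ms U) :=
  ofTV (SI S τ U {t : WithTop L | t ≠ ⊤}) (TV_SI S τ U IsId_ne_top)

theorem const_mem (U : Ultrafilter M) (m : M) : cl U (fun _ => m) ∈ Ext S τ U :=
  ⟨fun _ => m, DefF.const m, rfl, by
    rw [sv_const]
    exact bot_lt_top.ne⟩

/-- the embedding into the extension -/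
noncomputable def emb (U : Ultrafilter M) : M ↪ₑ[LA] Ext S τ U where
  toFun m := ⟨cl U (fun _ => m), const_mem S τ U m⟩
  map_formula' := by
    intro n φ x
    have h1 := (Ext S τ U).subtype.map_formula φ
      ((fun m => (⟨cl U (fun _ => m), const_mem S τ U m⟩ : Ext S τ U)) ∘ x)
    rw [← h1]
    have h2 := los_formula (U := U) φ (fun i _ => x i)
    refine h2.trans ?_
    rw [Filter.eventually_const]

/-- the intermediate structure of an element of the lattice -/
noncomputable def Kl (U : Ultrafilter M) (l : L) : LA.ElementarySubstructure (Ext S τ U) :=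
  ofTV {q : Ext S τ U | (q : Ms U) ∈ SI S τ U {t : WithTop L | t ≤ (l : WithTop L)}}
    (TV_restrict (TV_SI S τ U IsId_ne_top) (TV_SI S τ U (IsId_le l)) (by
      rintro q ⟨F, hF, h1, h2⟩
      exact ⟨F, hF, h1, ne_top_of_le_ne_top WithTop.coe_ne_top h2⟩))

theorem mem_Kl {U : Ultrafilter M} {l : L} {q : Ext S τ U} :
    q ∈ Kl S τ U l ↔ ∃ F, Df F ∧ cl U F = (q : Ms U) ∧ sv S τ F ≤ (l : WithTop L) := Iff.rfl

theorem range_emb_subset (l : L) : Set.range (emb S τ U) ⊆ (Kl S τ U l : Set (Ext S τ U)) := by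
  rintro _ ⟨m, rfl⟩
  have h : sv S τ (fun _ : M => m) ≤ (l : WithTop L) := by
    rw [sv_const]
    exact bot_le
  exact ⟨fun _ => m, DefF.const m, rfl, h⟩

include hU in
theorem Kl_le_iff [IsCompactlyGenerated L]
    (h1 : ∀ c : L, IsCompactElement c → ∃ n u, S.φ n u = (c : WithTop L)) (l l' : L) :
    Kl S τ U l ≤ Kl S τ U l' ↔ l ≤ l' := by
  constructor
  · intro h
    rw [le_iff_compact_le_imp]
    intro c hc hcl
    obtain ⟨n, u, hnu⟩ := h1 c hc
    obtain ⟨F, hF, hs⟩ := exists_sv S τ n u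
    rw [hnu] at hs
    have hmem : cl U F ∈ Ext S τ U := ⟨F, hF, rfl, by
      rw [hs]
      exact WithTop.coe_ne_top⟩
    have h2 : (⟨cl U F, hmem⟩ : Ext S τ U) ∈ Kl S τ U l := ⟨F, hF, rfl, by
      rw [hs]
      exact WithTop.coe_le_coe.2 hcl⟩
    obtain ⟨G, hG, h3, h4⟩ := h h2
    have h5 := sv_wd S τ hU hG hF h3
    rw [h5, hs] at h4
    exact WithTop.coe_le_coe.1 h4
  · rintro h q ⟨F, hF, h2, h3⟩
    exact ⟨F, hF, h2, h3.trans (WithTop.coe_le_coe.2 h)⟩

include hU in
theorem Kl_surj (h2 : ∀ n u, S.φ n u = ⊤ ∨ ∃ c : L, IsCompactElement c ∧ S.φ n u = (c : WithTop L))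
    (K : LA.ElementarySubstructure (Ext S τ U)) (hK : Set.range (emb S τ U) ⊆ (K : Set _)) :
    ∃ l, Kl S τ U l = K := by
  classical
  let D : Set L := {c | ∃ F, Df F ∧ (∃ q : Ext S τ U, q ∈ K ∧ cl U F = (q : Ms U)) ∧
    sv S τ F = (c : WithTop L)}
  refine ⟨sSup D, SetLike.ext fun q => ⟨?_, ?_⟩⟩
  · rintro ⟨B, hB, hq, hs⟩
    obtain ⟨n, u, hnu⟩ := sv_value S τ hB
    have hb : ∃ b : L, IsCompactElement b ∧ sv S τ B = (b : WithTop L) := by
      rcases h2 n u with h | h
      · rw [hnu, h] at hs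
        have hs2 : (⊤ : WithTop L) ≤ ((sSup D : L) : WithTop L) := hs
        exact absurd (top_le_iff.1 hs2) WithTop.coe_ne_top
      · rw [hnu]
        exact h
    obtain ⟨b, hbc, hsb⟩ := hb
    have hs' : sv S τ B ≤ ((sSup D : L) : WithTop L) := hs
    rw [hsb, WithTop.coe_le_coe] at hs'
    rw [CompleteLattice.isCompactElement_iff_exists_le_sSup_of_le_sSup] at hbc
    obtain ⟨t, ht, hbt⟩ := hbc D hs'
    let σ := t.equivFin
    have hD : ∀ i : Fin t.card, ((σ.symm i : t) : L) ∈ D := fun i => ht (σ.symm i).2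
    choose F hF1 hF2 hF3 using hD
    choose p hp1 hp2 using hF2
    have hle : sv S τ B ≤ Finset.univ.sup fun i => sv S τ (F i) := by
      rw [hsb]
      rcases h : Finset.univ.sup (fun i => sv S τ (F i)) with _ | s
      · exact le_top
      · apply WithTop.coe_le_coe.2
        refine hbt.trans (Finset.sup_le fun x hx => ?_)
        have h5 : sv S τ (F (σ ⟨x, hx⟩)) ≤ (s : WithTop L) := by
          have := Finset.le_sup (f := fun i => sv S τ (F i)) (Finset.mem_univ (σ ⟨x, hx⟩))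
          rw [h] at this
          exact this
        rw [hF3, Equiv.symm_apply_apply, WithTop.coe_le_coe] at h5
        exact h5
    obtain ⟨m, hm⟩ := of_sv_le_fin S τ F hF1 hB hle
    have h6 := dcl (U := U) ((Ext S τ U).subtype.comp K.subtype) (fun c =>
      ⟨⟨emb S τ U c, hK ⟨c, rfl⟩⟩, rfl⟩) (τ.X m) (Def_X S τ m) (hU m) F hF1
      (fun i => ⟨⟨p i, hp1 i⟩, (hp2 i).symm⟩) hB hm
    obtain ⟨a, ha⟩ := h6
    have h7 : (a : Ext S τ U) = q := Subtype.ext (ha.trans hq)
    rw [← h7]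
    exact a.2
  · intro hq
    obtain ⟨F, hF, h3, h4⟩ := q.2
    obtain ⟨c, hc⟩ := WithTop.ne_top_iff_exists.1 h4
    refine ⟨F, hF, h3, ?_⟩
    rw [← hc]
    exact WithTop.coe_le_coe.2 (le_sSup ⟨F, hF, ⟨q, hq, h3⟩, hc.symm⟩)

end iso

theorem exists_ext {L : Type v} [CompleteLattice L] [IsCompactlyGenerated L]
    (hV : InVarietyM3 L) (hcount : {x : L | IsCompactElement x}.Countable)
    {M : Type u} [PAModel M] [Countable M] (hns : ∃ c : M, Nonstd c) :
    ∃ (N : Type u) (_ : LA.Structure N) (f : M ↪ₑ[LA] N),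
      Nonempty ({K : LA.ElementarySubstructure N // Set.range f ⊆ (K : Set N)} ≃o L) := by
  obtain ⟨S, h1, h2⟩ := exists_Sys hV hcount
  obtain ⟨τ⟩ := exists_tower hns S.K S.f
  obtain ⟨U, hU⟩ := exists_ultra S τ
  refine ⟨Ext S τ U, inferInstance, emb S τ U, ⟨OrderIso.symm ?_⟩⟩
  refine RelIso.ofSurjective (OrderEmbedding.ofMapLEIff
    (fun l => (⟨Kl S τ U l, range_emb_subset S τ l⟩ :
      {K : LA.ElementarySubstructure (Ext S τ U) // Set.range (emb S τ U) ⊆ (K : Set _)}))
    (fun l l' => Kl_le_iff S τ hU h1 l l')) ?_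
  rintro ⟨K, hK⟩
  obtain ⟨l, hl⟩ := Kl_surj S τ hU h2 K hK
  exact ⟨l, Subtype.ext hl⟩

end Run7.h696
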