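import Pool.Agent.Run7.h696.Defs

/-!
Algebraic lattices in the variety generated by `M₃`: their semilattices of compact elements are
direct limits of powers of `M₃`.
-/

set_option autoImplicit false

universe u

namespace Run7.h696

theorem modular_of_variety {L : Type u} [Lattice L] (h : InVarietyM3 L) : IsModularLattice L := by
  refine ⟨fun {x} y {z} hxz => ?_⟩
  have h1 := h 3 (.meet (.join (.meet (.var 0) (.var 2)) (.var 1)) (.var 2))
    (.join (.meet (.var 0) (.var 2)) (.meet (.var 1) (.var 2))) (by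
      intro v
      simp only [LTerm.eval]
      generalize v 0 = p
      generalize v 1 = q
      generalize v 2 = r
      revert p q r
      decide) ![x, y, z]
  simp only [LTerm.eval, Matrix.cons_val_zero, Matrix.cons_val_one, Matrix.cons_val] at h1
  rw [inf_eq_left.2 hxz] at h1
  exact h1.le

section compact

variable {L : Type u} [CompleteLattice L]

theorem isCompact_sup {a b : L} (ha : IsCompactElement a) (hb : IsCompactElement b) :
    IsCompactElement (a ⊔ b) := by
  have := CompleteLattice.isCompactElement_finsetSup (f := fun i : Fin 2 => ![a, b] i)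
    Finset.univ (by
      intro i _
      fin_cases i
      · exact ha
      · exact hb)
  rw [Fin.univ_succ] at this
  simpa using this

theorem isCompact_bot : IsCompactElement (⊥ : L) := by
  intro s u hs _ _ _
  obtain ⟨x, hx⟩ := hs
  exact ⟨x, hx, bot_le⟩

theorem isCompact_finset_sup {ι : Type} (s : Finset ι) (f : ι → L)
    (h : ∀ i ∈ s, IsCompactElement (f i)) : IsCompactElement (s.sup f) :=
  CompleteLattice.isCompactElement_finsetSup s h

variable [IsCompactlyGenerated L]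

theorem exists_compact_family {ι : Type} [Fintype ι] {q : L} (hq : IsCompactElement q) (p : ι → L)
    (h : q ≤ Finset.univ.sup p) :
    ∃ r : ι → L, (∀ i, IsCompactElement (r i)) ∧ (∀ i, r i ≤ p i) ∧ q ≤ Finset.univ.sup r := by
  classical
  let D : Set L := {x | ∃ r : ι → L, (∀ i, IsCompactElement (r i)) ∧ (∀ i, r i ≤ p i) ∧
    x = Finset.univ.sup r}
  have hne : D.Nonempty := ⟨_, fun _ => ⊥, fun _ => isCompact_bot, fun _ => bot_le, rfl⟩
  have hdir : DirectedOn (· ≤ ·) D := by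
    rintro _ ⟨r, hr1, hr2, rfl⟩ _ ⟨r', hr1', hr2', rfl⟩
    refine ⟨_, ⟨fun i => r i ⊔ r' i, fun i => isCompact_sup (hr1 i) (hr1' i),
      fun i => sup_le (hr2 i) (hr2' i), rfl⟩, ?_, ?_⟩
    · exact Finset.sup_mono_fun fun i _ => le_sup_left
    · exact Finset.sup_mono_fun fun i _ => le_sup_right
  have hle : q ≤ sSup D := by
    refine h.trans (Finset.sup_le fun i _ => ?_)
    rw [← sSup_compact_le_eq (p i)]
    refine sSup_le ?_
    rintro c ⟨hc, hci⟩
    refine le_sSup ⟨Function.update (fun _ => ⊥) i c, ?_, ?_, ?_⟩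
    · intro j
      by_cases hj : j = i
      · subst hj; rw [Function.update_self]; exact hc
      · rw [Function.update_of_ne hj]; exact isCompact_bot
    · intro j
      by_cases hj : j = i
      · subst hj; rw [Function.update_self]; exact hci
      · rw [Function.update_of_ne hj]; exact bot_le
    · apply le_antisymm
      · have := Finset.le_sup (f := Function.update (fun _ => (⊥ : L)) i c) (Finset.mem_univ i)
        rwa [Function.update_self] at this
      · refine Finset.sup_le fun j _ => ?_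
        by_cases hj : j = i
        · subst hj; rw [Function.update_self]
        · rw [Function.update_of_ne hj]; exact bot_le
  obtain ⟨x, ⟨r, hr1, hr2, rfl⟩, hx⟩ :=
    (CompleteLattice.isCompactElement_iff_le_of_directed_sSup_le L q).1 hq D hne hdir hle
  exact ⟨r, hr1, hr2, hx⟩

theorem exists_compact_le_sup {q p p' : L} (hq : IsCompactElement q) (h : q ≤ p ⊔ p') :
    ∃ r r', IsCompactElement r ∧ IsCompactElement r' ∧ r ≤ p ∧ r' ≤ p' ∧ q ≤ r ⊔ r' := by
  obtain ⟨r, h1, h2, h3⟩ := exists_compact_family hq ![p, p'] (by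
    rw [Fin.univ_succ]
    simpa using h)
  refine ⟨r 0, r 1, h1 0, h1 1, h2 0, h2 1, ?_⟩
  rw [Fin.univ_succ] at h3
  simpa using h3

variable [IsModularLattice L]

theorem exists_modular {a b c : L} (ha : IsCompactElement a) (h1 : b ≤ a) (h2 : a ≤ b ⊔ c) :
    ∃ c', IsCompactElement c' ∧ c' ≤ c ∧ a = b ⊔ c' := by
  have h3 : a = b ⊔ c ⊓ a := by
    have := IsModularLattice.sup_inf_sup_assoc (x := b) (y := c) (z := a)
    rw [← sup_inf_assoc_of_le c h1]
    exact (inf_eq_right.2 h2).symm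
  obtain ⟨r, r', hr, hr', h4, h5, h6⟩ := exists_compact_le_sup ha h3.le
  refine ⟨r', hr', h5.trans inf_le_left, le_antisymm (h6.trans (sup_le_sup_right h4 _)) ?_⟩
  exact sup_le h1 (h5.trans inf_le_right)

/-- completing a compact element to a balanced compact triple -/
theorem exists_balanced {q1 p2 p3 : L} (hq : IsCompactElement q1) (h : q1 ≤ p2 ⊔ p3) :
    ∃ q2 q3, IsCompactElement q2 ∧ IsCompactElement q3 ∧ q2 ≤ p2 ∧ q3 ≤ p3 ∧
      q1 ⊔ q2 = q2 ⊔ q3 ∧ q2 ⊔ q3 = q1 ⊔ q3 := by
  obtain ⟨r2, r3, hr2, hr3, h2, h3, h4⟩ := exists_compact_le_sup hq h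
  obtain ⟨q2, hq2, h5, h6⟩ := exists_modular (a := q1 ⊔ r3) (b := r3) (c := r2)
    (isCompact_sup hq hr3) le_sup_right (sup_le (by rwa [sup_comm]) le_sup_left)
  obtain ⟨s, hs, h7, h8⟩ := exists_modular (a := q1 ⊔ q2) (b := q1) (c := r3)
    (isCompact_sup hq hq2) le_sup_left (sup_le le_sup_left (by rw [h6]; exact le_sup_right))
  obtain ⟨s', hs', h7', h8'⟩ := exists_modular (a := q1 ⊔ q2) (b := q2) (c := r3)
    (isCompact_sup hq hq2) le_sup_right (sup_le (by
      rw [sup_comm q2 r3, ← h6]; exact le_sup_left) le_sup_left)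
  have e1 : q1 ⊔ (s ⊔ s') = q1 ⊔ q2 := by
    rw [← sup_assoc, ← h8, h8', sup_assoc, sup_idem]
  have e2 : q2 ⊔ (s ⊔ s') = q1 ⊔ q2 := by
    rw [sup_comm s s', ← sup_assoc, ← h8', h8, sup_assoc, sup_idem]
  refine ⟨q2, s ⊔ s', hq2, isCompact_sup hs hs', h5.trans h2, sup_le (h7.trans h3) (h7'.trans h3),
    e2.symm, e2.trans e1.symm⟩

end compact

section homs

variable {L : Type u} [CompleteLattice L]

/-- the homomorphism given by a balanced triple -/
def mkHom (x y z : L) (h1 : x ⊔ y = y ⊔ z) (h2 : y ⊔ z = x ⊔ z) : SupBotHom M3 L where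
  toFun := fun s => match s with
    | .bot => ⊥
    | .a => x
    | .b => y
    | .c => z
    | .top => x ⊔ y
  map_sup' := by
    have e1 : ∀ s : M3, M3.bot ⊔ s = s := by decide
    have e2 : ∀ s : M3, s ⊔ M3.bot = s := by decide
    have e3 : ∀ s : M3, M3.top ⊔ s = M3.top := by decide
    have e4 : ∀ s : M3, s ⊔ M3.top = M3.top := by decide
    have e5 : ∀ s : M3, s ⊔ s = s := by decide
    have e6 : M3.a ⊔ M3.b = M3.top := by decide
    have e7 : M3.b ⊔ M3.a = M3.top := by decide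
    have e8 : M3.a ⊔ M3.c = M3.top := by decide
    have e9 : M3.c ⊔ M3.a = M3.top := by decide
    have e10 : M3.b ⊔ M3.c = M3.top := by decide
    have e11 : M3.c ⊔ M3.b = M3.top := by decide
    have h3 : x ⊔ y = x ⊔ z := h1.trans h2
    have k1 : z ≤ x ⊔ y := by rw [h3]; exact le_sup_right
    intro s t
    cases s <;> cases t <;>
      simp only [e1, e2, e3, e4, e5, e6, e7, e8, e9, e10, e11, bot_sup_eq, sup_bot_eq, sup_idem]
    all_goals first
      | rfl
      | exact sup_comm _ _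
      | exact h3
      | exact h1
      | (rw [sup_comm z x]; exact h3)
      | (rw [sup_comm z y]; exact h1)
      | exact (sup_eq_left.2 k1).symm
      | exact (sup_eq_right.2 k1).symm
      | exact (sup_eq_left.2 le_sup_left).symm
      | exact (sup_eq_right.2 le_sup_left).symm
      | exact (sup_eq_left.2 le_sup_right).symm
      | exact (sup_eq_right.2 le_sup_right).symm
  map_bot' := rfl

theorem m3_le_hom (τ τ' : SupBotHom M3 L) (ha : τ .a ≤ τ' .a) (hb : τ .b ≤ τ' .b)
    (hc : τ .c ≤ τ' .c) (s : M3) : τ s ≤ τ' s := by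
  cases s with
  | bot =>
    have : τ M3.bot = ⊥ := map_bot τ
    rw [this]
    exact bot_le
  | a => exact ha
  | b => exact hb
  | c => exact hc
  | top =>
    have e : M3.top = M3.a ⊔ M3.b := by decide
    rw [e, map_sup, map_sup]
    exact sup_le_sup ha hb

variable [IsCompactlyGenerated L] [IsModularLattice L]

/-- approximating a homomorphism by one with compact values -/
theorem exists_approx (τ : SupBotHom M3 L) (q : M3 → L) (hq : ∀ s, IsCompactElement (q s))
    (h : ∀ s, q s ≤ τ s) : ∃ τ' : SupBotHom M3 L, (∀ s, IsCompactElement (τ' s)) ∧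
      (∀ s, τ' s ≤ τ s) ∧ ∀ s, q s ≤ τ' s := by
  have eab : τ .a ⊔ τ .b = τ .top := by rw [← map_sup]; rfl
  have ebc : τ .b ⊔ τ .c = τ .top := by rw [← map_sup]; rfl
  have eac : τ .a ⊔ τ .c = τ .top := by rw [← map_sup]; rfl
  obtain ⟨r, r', hr, hr', h1, h2, h3⟩ := exists_compact_le_sup (hq .top)
    ((h .top).trans eab.ge)
  have la : q .a ⊔ r ≤ τ .b ⊔ τ .c := by
    rw [ebc, ← eab]
    exact (sup_le (h .a) h1).trans le_sup_left
  have lb : q .b ⊔ r' ≤ τ .a ⊔ τ .c := by
    rw [eac, ← eab]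
    exact (sup_le (h .b) h2).trans le_sup_right
  have lc : q .c ≤ τ .a ⊔ τ .b := by
    rw [eab, ← ebc]
    exact (h .c).trans le_sup_right
  obtain ⟨b1, c1, hb1, hc1, lb1, lc1, f1, g1⟩ := exists_balanced (isCompact_sup (hq .a) hr) la
  obtain ⟨a2, c2, ha2, hc2, la2, lc2, f2, g2⟩ := exists_balanced (isCompact_sup (hq .b) hr') lb
  obtain ⟨a3, b3, ha3, hb3, la3, lb3, f3, g3⟩ := exists_balanced (hq .c) lc
  set A1 := q .a ⊔ r with hA1
  set B2 := q .b ⊔ r' with hB2
  set C3 := q .c with hC3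
  -- f1 : A1 ⊔ b1 = b1 ⊔ c1, g1 : b1 ⊔ c1 = A1 ⊔ c1
  -- f2 : B2 ⊔ a2 = a2 ⊔ c2, g2 : a2 ⊔ c2 = B2 ⊔ c2
  -- f3 : C3 ⊔ a3 = a3 ⊔ b3, g3 : a3 ⊔ b3 = C3 ⊔ b3
  have s1 : ∀ x1 x2 x3 y1 y2 y3 : L, (x1 ⊔ x2 ⊔ x3) ⊔ (y1 ⊔ y2 ⊔ y3) =
      (x1 ⊔ y1) ⊔ (x2 ⊔ y2) ⊔ (x3 ⊔ y3) := by
    intro x1 x2 x3 y1 y2 y3
    rw [sup_sup_sup_comm, sup_sup_sup_comm x1 x2 y1 y2]
  have F : (A1 ⊔ a2 ⊔ a3) ⊔ (b1 ⊔ B2 ⊔ b3) = (b1 ⊔ B2 ⊔ b3) ⊔ (c1 ⊔ c2 ⊔ C3) := by
    rw [s1, s1, f1, sup_comm a2 B2, f2, g2, g3, sup_comm C3 b3]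
  have G : (b1 ⊔ B2 ⊔ b3) ⊔ (c1 ⊔ c2 ⊔ C3) = (A1 ⊔ a2 ⊔ a3) ⊔ (c1 ⊔ c2 ⊔ C3) := by
    rw [s1, s1, g1, ← g2, sup_comm b3 C3, ← g3, ← f3, sup_comm C3 a3]
  refine ⟨mkHom (A1 ⊔ a2 ⊔ a3) (b1 ⊔ B2 ⊔ b3) (c1 ⊔ c2 ⊔ C3) F G, ?_, ?_, ?_⟩
  · intro s
    have ka : IsCompactElement (A1 ⊔ a2 ⊔ a3) :=
      isCompact_sup (isCompact_sup (isCompact_sup (hq .a) hr) ha2) ha3
    have kb : IsCompactElement (b1 ⊔ B2 ⊔ b3) :=
      isCompact_sup (isCompact_sup hb1 (isCompact_sup (hq .b) hr')) hb3
    have kc : IsCompactElement (c1 ⊔ c2 ⊔ C3) :=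
      isCompact_sup (isCompact_sup hc1 hc2) (hq .c)
    cases s with
    | bot => exact isCompact_bot
    | a => exact ka
    | b => exact kb
    | c => exact kc
    | top => exact isCompact_sup ka kb
  · apply m3_le_hom
    · exact sup_le (sup_le (sup_le (h .a) h1) la2) la3
    · exact sup_le (sup_le lb1 (sup_le (h .b) h2)) lb3
    · exact sup_le (sup_le lc1 lc2) (h .c)
  · intro s
    cases s with
    | bot =>
      have h5 := h .bot
      have h6 : τ M3.bot = ⊥ := map_bot τ
      rw [h6] at h5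
      exact h5.trans bot_le
    | a => exact le_sup_left.trans (le_sup_left.trans le_sup_left)
    | b => exact le_sup_left.trans (le_sup_right.trans le_sup_left)
    | c => exact le_sup_right
    | top =>
      refine h3.trans (sup_le_sup ?_ ?_)
      · exact le_sup_right.trans (le_sup_left.trans le_sup_left)
      · exact le_sup_right.trans (le_sup_right.trans le_sup_left)

/-- the homomorphism on a power given by homomorphisms on the factors -/
def totHom {ι : Type} [Fintype ι] (τ : ι → SupBotHom M3 L) : SupBotHom (ι → M3) L where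
  toFun := fun u => Finset.univ.sup fun i => τ i (u i)
  map_sup' := by
    intro u v
    rw [← Finset.sup_sup]
    congr 1
    funext i
    show τ i ((u ⊔ v) i) = τ i (u i) ⊔ τ i (v i)
    rw [← map_sup]
    rfl
  map_bot' := by
    apply le_antisymm _ bot_le
    refine Finset.sup_le fun i _ => ?_
    show τ i ⊥ ≤ ⊥
    rw [map_bot]

/-- approximating a homomorphism on a power by one with compact values -/
theorem exists_approx_tot {ι J : Type} [Fintype ι] [Finite J] (τ : ι → SupBotHom M3 L) (r : J → L)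
    (hr : ∀ j, IsCompactElement (r j)) (w : J → ι → M3) (h : ∀ j, r j ≤ totHom τ (w j)) :
    ∃ φ : SupBotHom (ι → M3) L, (∀ u, IsCompactElement (φ u)) ∧ (∀ u, φ u ≤ totHom τ u) ∧
      ∀ j, r j ≤ φ (w j) := by
  classical
  cases nonempty_fintype J
  choose q hq1 hq2 hq3 using fun j => exists_compact_family (hr j) (fun i => τ i (w j i)) (h j)
  choose τ' h1 h2 h3 using fun i => exists_approx (τ i)
    (fun s => (Finset.univ.filter fun j => w j i = s).sup fun j => q j i)
    (fun s => isCompact_finset_sup _ _ fun j _ => hq1 j i)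
    (fun s => Finset.sup_le fun j hj => by
      rw [Finset.mem_filter] at hj
      rw [← hj.2]
      exact hq2 j i)
  refine ⟨totHom τ', ?_, ?_, ?_⟩
  · intro u
    exact isCompact_finset_sup _ _ fun i _ => h1 i _
  · intro u
    exact Finset.sup_mono_fun fun i _ => h2 i _
  · intro j
    refine (hq3 j).trans (Finset.sup_mono_fun fun i _ => ?_)
    refine le_trans ?_ (h3 i (w j i))
    exact Finset.le_sup (f := fun j => q j i)
      (Finset.mem_filter.2 ⟨Finset.mem_univ j, rfl⟩)

end homs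

end Run7.h696
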