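import Pool.Agent.Run7.h696.Lat

/-!
The semilattice of compact elements of an algebraic lattice in the variety generated by `M₃` as a
direct limit of finite powers of `M₃`.
-/

set_option autoImplicit false

universe u

namespace Run7.h696

section terms

variable {L : Type u} [CompleteLattice L] {n : ℕ}

/-- the values of a term at all valuations in `M₃` -/
def LTerm.ev (p : LTerm n) : (Fin n → M3) → M3 := fun g => p.eval g

theorem LTerm.ev_meet (p q : LTerm n) : (LTerm.meet p q).ev = p.ev ⊓ q.ev := rfl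

theorem LTerm.ev_join (p q : LTerm n) : (LTerm.join p q).ev = p.ev ⊔ q.ev := rfl

theorem eval_mono (hV : InVarietyM3 L) (v : Fin n → L) {p q : LTerm n} (h : p.ev ≤ q.ev) :
    p.eval v ≤ q.eval v := by
  have h1 := hV n (.meet p q) p (fun g => by
    have := congrFun (inf_eq_left.2 h) g
    exact this) v
  exact inf_eq_left.1 h1

/-- least terms -/
theorem exists_least (P : LTerm n → Prop) (hP : ∀ p q, P p → P q → P (.meet p q)) (hne : ∃ p, P p) :
    ∃ p, P p ∧ ∀ q, P q → p.ev ≤ q.ev := by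
  obtain ⟨m, ⟨p, hp, rfl⟩, hm⟩ := (wellFounded_lt : WellFounded
    (fun x y : (Fin n → M3) → M3 => x < y)).has_min {x | ∃ p, P p ∧ p.ev = x} (by
      obtain ⟨p, hp⟩ := hne
      exact ⟨_, p, hp, rfl⟩)
  refine ⟨p, hp, fun q hq => ?_⟩
  have h1 := hm _ ⟨_, hP p q hp hq, rfl⟩
  rw [LTerm.ev_meet] at h1
  by_contra h2
  exact h1 (lt_of_le_of_ne inf_le_left (fun h3 => h2 (inf_eq_left.1 h3)))

/-- the homomorphism from `M₃` into `L` which belongs to a valuation -/
noncomputable def tau (v : Fin n → L) (g : Fin n → M3) (s : M3) : L :=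
  sInf {x | ∃ p : LTerm n, s ≤ p.eval g ∧ p.eval v = x}

theorem tau_le (v : Fin n → L) (g : Fin n → M3) (p : LTerm n) : tau v g (p.eval g) ≤ p.eval v :=
  sInf_le ⟨p, le_rfl, rfl⟩

theorem tau_mono (v : Fin n → L) (g : Fin n → M3) {s t : M3} (h : s ≤ t) :
    tau v g s ≤ tau v g t := by
  refine sInf_le_sInf ?_
  rintro x ⟨p, hp, hx⟩
  exact ⟨p, h.trans hp, hx⟩

theorem exists_tau (hV : InVarietyM3 L) (v : Fin n → L) (g : Fin n → M3) (s : M3) :
    (¬ ∃ p : LTerm n, s ≤ p.eval g) ∧ tau v g s = ⊤ ∨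
      ∃ p : LTerm n, s ≤ p.eval g ∧ tau v g s = p.eval v := by
  by_cases h : ∃ p : LTerm n, s ≤ p.eval g
  · right
    obtain ⟨p, hp, hmin⟩ := exists_least (fun p : LTerm n => s ≤ p.eval g)
      (fun p q hp hq => le_inf hp hq) h
    refine ⟨p, hp, le_antisymm (sInf_le ⟨p, hp, rfl⟩) (le_sInf ?_)⟩
    rintro x ⟨q, hq, rfl⟩
    exact eval_mono hV v (hmin q hq)
  · left
    refine ⟨h, ?_⟩
    unfold tau
    have : {x | ∃ p : LTerm n, s ≤ p.eval g ∧ p.eval v = x} = ∅ := by
      ext x
      constructor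
      · rintro ⟨p, hp, _⟩
        exact absurd ⟨p, hp⟩ h
      · intro hx
        exact hx.elim
    rw [this, sInf_empty]

/-- `tau` as a homomorphism -/
noncomputable def tauHom (hV : InVarietyM3 L) (v : Fin n → L) (hv : ∃ i, v i = ⊥)
    (g : Fin n → M3) : SupBotHom M3 L where
  toFun := tau v g
  map_sup' := by
    intro s t
    apply le_antisymm
    · rcases exists_tau hV v g s with ⟨_, h⟩ | ⟨p, hp, h⟩
      · rw [h, top_sup_eq]
        exact le_top
      · rcases exists_tau hV v g t with ⟨_, h'⟩ | ⟨q, hq, h'⟩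
        · rw [h', sup_top_eq]
          exact le_top
        · rw [h, h']
          exact sInf_le ⟨.join p q, sup_le_sup hp hq, rfl⟩
    · exact sup_le (tau_mono v g le_sup_left) (tau_mono v g le_sup_right)
  map_bot' := by
    obtain ⟨i, hi⟩ := hv
    apply le_antisymm _ bot_le
    rw [← hi]
    exact sInf_le ⟨.var i, bot_le, rfl⟩

theorem eval_le_tot (hV : InVarietyM3 L) (v : Fin n → L) (hv : ∃ i, v i = ⊥) (p : LTerm n) :
    p.eval v ≤ totHom (tauHom hV v hv) p.ev := by
  classical
  have key : ∀ G : Finset (Fin n → M3), G.Nonempty → ∃ q : LTerm n,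
      q.eval v ≤ totHom (tauHom hV v hv) p.ev ∧ ∀ g ∈ G, p.eval g ≤ q.eval g := by
    intro G hG
    have h1 : ∀ g : Fin n → M3, ∃ q : LTerm n, p.eval g ≤ q.eval g ∧
        q.eval v ≤ totHom (tauHom hV v hv) p.ev := by
      intro g
      rcases exists_tau hV v g (p.eval g) with ⟨h, _⟩ | ⟨q, hq, h⟩
      · exact absurd ⟨p, le_rfl⟩ h
      · refine ⟨q, hq, ?_⟩
        rw [← h]
        exact Finset.le_sup (f := fun g => tauHom hV v hv g (p.ev g)) (Finset.mem_univ g)
    induction hG using Finset.Nonempty.cons_induction with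
    | singleton g =>
      obtain ⟨q, hq1, hq2⟩ := h1 g
      exact ⟨q, hq2, fun g' hg' => by rw [Finset.mem_singleton.1 hg']; exact hq1⟩
    | cons g G hg hG ih =>
      obtain ⟨q, hq1, hq2⟩ := h1 g
      obtain ⟨q', hq1', hq2'⟩ := ih
      refine ⟨.join q q', sup_le hq2 hq1', fun g' hg' => ?_⟩
      rcases Finset.mem_cons.1 hg' with rfl | h
      · exact hq1.trans le_sup_left
      · exact (hq2' g' h).trans le_sup_right
  obtain ⟨q, hq1, hq2⟩ := key Finset.univ ⟨fun _ => .bot, Finset.mem_univ _⟩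
  exact (eval_mono hV v (fun g => hq2 g (Finset.mem_univ g))).trans hq1

theorem tot_le_eval (hV : InVarietyM3 L) (v : Fin n → L) (hv : ∃ i, v i = ⊥) (p : LTerm n) :
    totHom (tauHom hV v hv) p.ev ≤ p.eval v :=
  Finset.sup_le fun g _ => tau_le v g p

end terms

section step

variable {L : Type u} [CompleteLattice L] [IsCompactlyGenerated L]

/-- One step of the construction of the direct limit. -/
theorem lat_step (hV : InVarietyM3 L) {k : ℕ} (φ : SupBotHom (Fin k → M3) L)
    (hφ : ∀ u, IsCompactElement (φ u)) (c : L) (hc : IsCompactElement c) :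
    ∃ (k' : ℕ) (φ' : SupBotHom (Fin k' → M3) L) (f : SupBotHom (Fin k → M3) (Fin k' → M3)),
      (∀ u, IsCompactElement (φ' u)) ∧ (∀ u, φ' (f u) = φ u) ∧ (∃ u, φ' u = c) ∧
      ∀ u u', φ u ≤ φ u' → f u ≤ f u' := by
  classical
  have hmod : IsModularLattice L := modular_of_variety hV
  -- the finite semilattice generated by the range of `φ` and `c`
  let W : Type := (Fin k → M3) × Bool
  let vv : W → L := fun p => if p.2 then φ p.1 ⊔ c else φ p.1
  let e : W ≃ Fin (Fintype.card W) := Fintype.equivFin W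
  let v : Fin (Fintype.card W) → L := fun i => vv (e.symm i)
  have hvv : ∀ p, v (e p) = vv p := fun p => by
    show vv (e.symm (e p)) = vv p
    rw [Equiv.symm_apply_apply]
  have hvc : ∀ i, IsCompactElement (v i) := by
    intro i
    show IsCompactElement (if (e.symm i).2 then φ (e.symm i).1 ⊔ c else φ (e.symm i).1)
    split_ifs
    · exact isCompact_sup (hφ _) hc
    · exact hφ _
  have hbot : ∃ i, v i = ⊥ := ⟨e (⊥, false), by
    rw [hvv]
    show φ ⊥ = ⊥
    rw [map_bot]⟩
  -- closure under joins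
  have hclos : ∀ i j, ∃ l, v l = v i ⊔ v j := by
    intro i j
    obtain ⟨⟨x, b⟩, rfl⟩ := e.surjective i
    obtain ⟨⟨y, b'⟩, rfl⟩ := e.surjective j
    refine ⟨e (x ⊔ y, b || b'), ?_⟩
    rw [hvv, hvv, hvv]
    cases b <;> cases b' <;> simp only [vv, map_sup, Bool.or_false, Bool.or_true,
      if_true, if_false, Bool.false_eq_true]
    · exact sup_assoc _ _ _
    · exact (sup_right_comm _ _ _)
    · rw [sup_sup_sup_comm, sup_idem]
  -- least terms
  have hleast : ∀ i, ∃ p : LTerm (Fintype.card W), v i ≤ p.eval v ∧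
      ∀ q : LTerm (Fintype.card W), v i ≤ q.eval v → p.ev ≤ q.ev := fun i =>
    exists_least (fun p => v i ≤ p.eval v) (fun p q hp hq => le_inf hp hq) ⟨.var i, le_rfl⟩
  choose p hp1 hp2 using hleast
  have hp3 : ∀ i, (p i).eval v = v i := fun i =>
    le_antisymm (eval_mono hV v (hp2 i (.var i) le_rfl)) (hp1 i)
  -- the section
  let σ : Fin (Fintype.card W) → (Fin (Fintype.card W) → M3) → M3 := fun i =>
    if v i = ⊥ then ⊥ else (p i).ev
  have hσmono : ∀ i j, v i ≤ v j → σ i ≤ σ j := by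
    intro i j h
    simp only [σ]
    split_ifs with h1 h2 h2
    · exact le_rfl
    · exact bot_le
    · rw [h2] at h
      exact absurd (le_bot_iff.1 h) h1
    · exact hp2 i (p j) (h.trans (hp1 j))
  have hσsup : ∀ i j l, v l = v i ⊔ v j → σ l = σ i ⊔ σ j := by
    intro i j l h
    apply le_antisymm
    · by_cases h1 : v i = ⊥
      · have h2 : v l = v j := by rw [h, h1, bot_sup_eq]
        exact (hσmono l j h2.le).trans le_sup_right
      · by_cases h2 : v j = ⊥
        · have h3 : v l = v i := by rw [h, h2, sup_bot_eq]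
          exact (hσmono l i h3.le).trans le_sup_left
        · have h3 : v l ≠ ⊥ := by
            intro h3
            rw [h3] at h
            exact h1 (le_bot_iff.1 (le_sup_left.trans h.ge))
          simp only [σ]
          rw [if_neg h1, if_neg h2, if_neg h3]
          exact hp2 l (.join (p i) (p j)) (by
            rw [h]
            exact sup_le_sup (hp1 i) (hp1 j))
    · exact sup_le (hσmono i l (by rw [h]; exact le_sup_left))
        (hσmono j l (by rw [h]; exact le_sup_right))
  have hσ1 : ∀ i, v i ≤ totHom (tauHom hV v hbot) (σ i) := by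
    intro i
    simp only [σ]
    split_ifs with h1
    · rw [h1]
      exact bot_le
    · rw [← hp3 i]
      have := eval_le_tot hV v hbot (p i)
      rw [hp3 i] at this ⊢
      exact this
  have hσ2 : ∀ i, totHom (tauHom hV v hbot) (σ i) ≤ v i := by
    intro i
    simp only [σ]
    split_ifs with h1
    · rw [map_bot]
      exact bot_le
    · rw [← hp3 i]
      have := tot_le_eval hV v hbot (p i)
      rw [hp3 i] at this ⊢
      exact this
  obtain ⟨ψ, hψ1, hψ2, hψ3⟩ := exists_approx_tot (tauHom hV v hbot) v hvc σ hσ1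
  have hψ4 : ∀ i, ψ (σ i) = v i := fun i => le_antisymm ((hψ2 _).trans (hσ2 i)) (hψ3 i)
  -- reindex
  let N0 : Type := Fin (Fintype.card W) → M3
  let e' : N0 ≃ Fin (Fintype.card N0) := Fintype.equivFin N0
  let φ' : SupBotHom (Fin (Fintype.card N0) → M3) L :=
    { toFun := fun u => ψ (fun g => u (e' g))
      map_sup' := fun u u' => by
        rw [← map_sup]
        rfl
      map_bot' := by
        have : (fun g => (⊥ : Fin (Fintype.card N0) → M3) (e' g)) = (⊥ : N0 → M3) := rfl
        rw [this, map_bot] }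
  let s : (Fin k → M3) → Fin (Fintype.card W) := fun u => e (u, false)
  have hs : ∀ u, v (s u) = φ u := fun u => by rw [hvv]; rfl
  let f : SupBotHom (Fin k → M3) (Fin (Fintype.card N0) → M3) :=
    { toFun := fun u t => σ (s u) (e'.symm t)
      map_sup' := fun u u' => by
        have := hσsup (s u) (s u') (s (u ⊔ u')) (by rw [hs, hs, hs, map_sup])
        funext t
        exact congrFun this (e'.symm t)
      map_bot' := by
        have h1 : v (s ⊥) = ⊥ := by rw [hs, map_bot]
        funext t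
        show σ (s ⊥) (e'.symm t) = ⊥
        simp only [σ]
        rw [if_pos h1]
        rfl }
  have hφ' : ∀ i, φ' (fun t => σ i (e'.symm t)) = v i := by
    intro i
    show ψ (fun g => σ i (e'.symm (e' g))) = v i
    rw [← hψ4 i]
    congr 1
    funext g
    rw [Equiv.symm_apply_apply]
  refine ⟨_, φ', f, fun u => hψ1 _, fun u => ?_, ?_, fun u u' h => ?_⟩
  · rw [← hs u]
    exact hφ' (s u)
  · refine ⟨_, (hφ' (e (⊥, true))).trans ?_⟩
    rw [hvv]
    show φ ⊥ ⊔ c = c
    rw [map_bot, bot_sup_eq]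
  · intro t
    exact hσmono (s u) (s u') (by rw [hs, hs]; exact h) (e'.symm t)

/-- **The semilattice of compact elements as a direct limit of powers of `M₃`.** -/
theorem exists_limit (hV : InVarietyM3 L) (hcount : {x : L | IsCompactElement x}.Countable) :
    ∃ (k : ℕ → ℕ) (φ : ∀ n, SupBotHom (Fin (k n) → M3) L)
      (f : ∀ n, SupBotHom (Fin (k n) → M3) (Fin (k (n + 1)) → M3)),
      (∀ n u, IsCompactElement (φ n u)) ∧ (∀ n u, φ (n + 1) (f n u) = φ n u) ∧
      (∀ c : L, IsCompactElement c → ∃ n u, φ n u = c) ∧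
      ∀ n u u', φ n u ≤ φ n u' → f n u ≤ f n u' := by
  classical
  obtain ⟨c, hc⟩ := hcount.exists_eq_range ⟨⊥, isCompact_bot⟩
  have hcc : ∀ n, IsCompactElement (c n) := fun n => by
    have : c n ∈ {x : L | IsCompactElement x} := by rw [hc]; exact ⟨n, rfl⟩
    exact this
  let S : Type u := Σ k : ℕ, {φ : SupBotHom (Fin k → M3) L // ∀ u, IsCompactElement (φ u)}
  have step : ∀ (n : ℕ) (s : S), ∃ (s' : S) (f : SupBotHom (Fin s.1 → M3) (Fin s'.1 → M3)),
      (∀ u, s'.2.1 (f u) = s.2.1 u) ∧ (∃ u, s'.2.1 u = c n) ∧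
      ∀ u u', s.2.1 u ≤ s.2.1 u' → f u ≤ f u' := by
    intro n s
    obtain ⟨k', φ', f, h1, h2, h3, h4⟩ := lat_step hV s.2.1 s.2.2 (c n) (hcc n)
    exact ⟨⟨k', φ', h1⟩, f, h2, h3, h4⟩
  choose nx fx hx1 hx2 hx3 using step
  let s0 : S := ⟨0, ⟨⊥, fun u => isCompact_bot⟩⟩
  let st : ℕ → S := fun n => Nat.rec s0 (fun n s => nx n s) n
  refine ⟨fun n => (st n).1, fun n => (st n).2.1, fun n => fx n (st n), fun n u => (st n).2.2 u,
    fun n u => hx1 n (st n) u, fun x hx => ?_, fun n u u' h => hx3 n (st n) u u' h⟩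
  have : x ∈ {x : L | IsCompactElement x} := hx
  rw [hc] at this
  obtain ⟨n, rfl⟩ := this
  obtain ⟨u, hu⟩ := hx2 n (st n)
  exact ⟨n + 1, u, hu⟩

end step

end Run7.h696
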