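import Pool.Agent.Helper687.Arith.Proof

/-!
Models of Peano arithmetic: standard and nonstandard elements, overspill, codes of externally given
finite functions.
-/

set_option autoImplicit false

universe u

namespace Run7.h696

open FirstOrder FirstOrder.Language Pool.Agent.Helper687.Arith

section

variable {M : Type u} [PAModel M]

/-- `c` is larger than all standard numbers -/
def Nonstd (c : M) : Prop := ∀ n : ℕ, (n : M) < c

theorem std_of_lt (n : ℕ) : ∀ x : M, x < (n : M) → ∃ k : ℕ, k < n ∧ x = (k : M) := by
  induction n with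
  | zero =>
    intro x hx
    rw [Nat.cast_zero] at hx
    exact absurd hx (not_lt.mpr zero_le)
  | succ n ih =>
    intro x hx
    rw [Nat.cast_succ] at hx
    rcases lt_succ_iff'.mp hx with h | h
    · obtain ⟨k, hk, e⟩ := ih x h
      exact ⟨k, by omega, e⟩
    · exact ⟨n, by omega, h⟩

theorem natCast_lt {m n : ℕ} (h : m < n) : (m : M) < (n : M) := by
  obtain ⟨d, rfl⟩ := Nat.exists_eq_add_of_lt h
  rw [Nat.cast_succ, Nat.cast_add]
  exact lt_succ_iff.mpr le_self_add

theorem natCast_lt_iff {m n : ℕ} : (m : M) < (n : M) ↔ m < n := by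
  constructor
  · intro h
    by_contra hno
    rcases Nat.lt_or_ge n m with h1 | h1
    · exact absurd h (not_lt.mpr (natCast_lt h1).le)
    · have : m = n := by omega
      rw [this] at h
      exact lt_irrefl _ h
  · exact natCast_lt

theorem natCast_inj {m n : ℕ} : (m : M) = (n : M) ↔ m = n := by
  constructor
  · intro h
    by_contra hno
    rcases Nat.lt_or_gt_of_ne hno with h1 | h1
    · exact (natCast_lt (M := M) h1).ne h
    · exact (natCast_lt (M := M) h1).ne' h
  · rintro rfl
    rfl

theorem natCast_le_iff {m n : ℕ} : (m : M) ≤ (n : M) ↔ m ≤ n := by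
  rw [← not_lt, natCast_lt_iff, not_lt]

/-- Overspill. -/
theorem overspill {P : M → Prop} (hP : Def (fun v => P (v 0))) (hns : ∃ c : M, Nonstd c)
    (h : ∀ n : ℕ, P (n : M)) : ∃ c : M, Nonstd c ∧ P c := by
  by_contra hno
  push Not at hno
  have hstd : ∀ x : M, P x → ∃ k : ℕ, x = (k : M) := by
    intro x hx
    have h1 : ¬ Nonstd x := fun h2 => hno x h2 hx
    unfold Nonstd at h1
    push Not at h1
    obtain ⟨n, hn⟩ := h1
    obtain ⟨k, _, e⟩ := std_of_lt (n + 1) x (by
      rw [Nat.cast_succ]
      exact lt_succ_iff.mpr hn)
    exact ⟨k, e⟩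
  obtain ⟨c, hc⟩ := hns
  refine hno c hc (ind hP (by simpa using h 0) (fun x hx => ?_) c)
  obtain ⟨k, rfl⟩ := hstd x hx
  have := h (k + 1)
  rwa [Nat.cast_succ] at this

theorem pow2_natCast (n : ℕ) : pow2 (n : M) = ((2 ^ n : ℕ) : M) := by
  induction n with
  | zero => rw [Nat.cast_zero, pow2_zero, pow_zero, Nat.cast_one]
  | succ n ih =>
    rw [Nat.cast_succ, pow2_succ, ih, pow_succ]
    push_cast
    ring

/-- codes of externally given functions on standard initial segments -/
theorem code_fin (F : ℕ → M) (n : ℕ) : ∃ e : M, ∀ k : ℕ, k < n → ap e (k : M) = F k := by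
  induction n with
  | zero => exact ⟨0, fun k hk => absurd hk (Nat.not_lt_zero k)⟩
  | succ n ih =>
    obtain ⟨e, he⟩ := ih
    have hf : DefF (fun v : ℕ → M => the (fun z => (v 0 = (n : M) ∧ z = F n) ∨
        (¬ v 0 = (n : M) ∧ z = ap e (v 0)))) := by
      (repeat' first
        | assumption
        | with_reducible exact DefF.var _
        | with_reducible exact DefF.const _
        | with_reducible exact Def.const _
        | with_reducible apply DefF.ap
        | with_reducible apply Def.and
        | with_reducible apply Def.or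
        | with_reducible apply Def.iff
        | with_reducible apply Def.not
        | with_reducible apply Def.ex
        | with_reducible apply Def.all
        | with_reducible apply Def.imp
        | with_reducible apply Def.eq
        | with_reducible apply Def.lt
        | with_reducible apply Def.le
        | with_reducible apply DefF.add
        | with_reducible apply DefF.mul
        | with_reducible apply DefF.the)
    obtain ⟨e', he'⟩ := exists_ap (f := fun x : M => the (fun z => (x = (n : M) ∧ z = F n) ∨
        (¬ x = (n : M) ∧ z = ap e x))) hf ((n + 1 : ℕ) : M)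
    refine ⟨e', fun k hk => ?_⟩
    rw [he' k (natCast_lt hk)]
    by_cases h : k = n
    · subst h
      apply the_eq (P := fun z => ((k : M) = (k : M) ∧ z = F k) ∨
        (¬ (k : M) = (k : M) ∧ z = ap e (k : M)))
      · exact Or.inl ⟨rfl, rfl⟩
      · rintro y (⟨_, hy⟩ | ⟨hy, _⟩)
        · exact hy
        · exact absurd rfl hy
    · have h1 : ¬ (k : M) = (n : M) := fun h2 => h (natCast_inj.1 h2)
      apply the_eq (P := fun z => ((k : M) = (n : M) ∧ z = F n) ∨
        (¬ (k : M) = (n : M) ∧ z = ap e (k : M)))
      · refine Or.inr ⟨h1, ?_⟩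
        rw [he k (by omega)]
      · rintro y (⟨hy, _⟩ | ⟨_, hy⟩)
        · exact absurd hy h1
        · rw [hy, he k (by omega)]

/-- numbers with prescribed standard binary digits -/
theorem exists_digits (Q : ℕ → Prop) (n : ℕ) : ∃ w : M, w < pow2 (n : M) ∧
    ∀ k : ℕ, k < n → (Mem (k : M) w ↔ Q k) := by
  induction n with
  | zero => exact ⟨0, pow2_pos _, fun k hk => absurd hk (Nat.not_lt_zero k)⟩
  | succ n ih =>
    obtain ⟨w, hw, h⟩ := ih
    by_cases hQ : Q n
    · refine ⟨w + pow2 (n : M), ?_, fun k hk => ?_⟩
      · rw [Nat.cast_succ, pow2_succ]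
        gcongr
      · rw [mem_add_pow2 hw, natCast_inj]
        by_cases hkn : k = n
        · subst hkn
          simp [hQ]
        · rw [h k (by omega)]
          simp [hkn]
    · refine ⟨w, ?_, fun k hk => ?_⟩
      · rw [Nat.cast_succ]
        exact hw.trans (pow2_lt_succ _)
      · by_cases hkn : k = n
        · subst hkn
          refine iff_of_false (fun h1 => ?_) hQ
          exact lt_irrefl _ (h1.lt_of_lt_pow2 hw)
        · exact h k (by omega)

/-! ### finite quantifiers -/

theorem Def_forall_fin {ι : Type} [Finite ι] {R : ι → (ℕ → M) → Prop} (h : ∀ i, Def (R i)) :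
    Def (fun v => ∀ i, R i v) := by
  classical
  cases nonempty_fintype ι
  have key : ∀ s : Finset ι, Def (fun v => ∀ i ∈ s, R i v) := by
    intro s
    induction s using Finset.induction_on with
    | empty => exact Def.congr (Def.const True) (fun v => by simp)
    | insert i s _ ih => exact Def.congr (Def.and (h i) ih) (fun v => by simp)
  exact Def.congr (key Finset.univ) (fun v => by simp)

theorem Def_exists_fin {ι : Type} [Finite ι] {R : ι → (ℕ → M) → Prop} (h : ∀ i, Def (R i)) :
    Def (fun v => ∃ i, R i v) :=
  Def.congr (Def.not (Def_forall_fin fun i => Def.not (h i))) (fun v => by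
    simp)

end

end Run7.h696
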