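import Pool.Agent.Run7.h696.PA1
import Pool.Agent.Run7.h696.Comb

/-!
Words over the alphabet `(Fin K → F4)` inside a model of Peano arithmetic, coded by numbers.
-/

set_option autoImplicit false

universe u

namespace Run7.h696

open FirstOrder FirstOrder.Language Pool.Agent.Helper687.Arith

section

variable {M : Type u} [PAModel M]

/-- the position of the bit number `j` of the letter number `t` -/
def pos (K : ℕ) (t : M) (j : ℕ) : M := ((2 * K : ℕ) : M) * t + (j : M)

/-- the bound for the codes of words of length `c` -/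
noncomputable def bd (K : ℕ) (c : M) : M := pow2 (((2 * K : ℕ) : M) * c)

/-- the condition on the difference bits of two letters -/
def kerP (s : M3) (d e : Prop) : Prop :=
  match s with
  | .bot => True
  | .a => ¬ d
  | .b => ¬ e
  | .c => (d ↔ e)
  | .top => ¬ d ∧ ¬ e

theorem kerP_false (s : M3) : kerP s False False := by
  cases s <;> simp [kerP]

theorem kerP_congr (s : M3) {d e d' e' : Prop} (h : d ↔ d') (h' : e ↔ e') :
    kerP s d e ↔ kerP s d' e' := by
  rw [propext h, propext h']

/-- the relation on (codes of) words which belongs to `s` -/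
def RelM {K : ℕ} (s : Fin K → M3) (w w' : M) : Prop :=
  ∀ (i : Fin K) (t : M), kerP (s i)
    (¬ (Mem (pos K t (2 * i)) w ↔ Mem (pos K t (2 * i)) w'))
    (¬ (Mem (pos K t (2 * i + 1)) w ↔ Mem (pos K t (2 * i + 1)) w'))

theorem DefF_pos (K : ℕ) (j : ℕ) {f : (ℕ → M) → M} (hf : DefF f) :
    DefF (fun v => pos K (f v) j) :=
  DefF.add (DefF.mul (DefF.const _) hf) (DefF.const _)

theorem DefF_bd (K : ℕ) {f : (ℕ → M) → M} (hf : DefF f) : DefF (fun v => bd K (f v)) :=
  DefF.pow2 (DefF.mul (DefF.const _) hf)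

theorem Def_kerP (s : M3) {R S : (ℕ → M) → Prop} (hR : Def R) (hS : Def S) :
    Def (fun v => kerP s (R v) (S v)) := by
  cases s with
  | bot => exact Def.const True
  | a => exact Def.not hR
  | b => exact Def.not hS
  | c => exact Def.iff hR hS
  | top => exact Def.and (Def.not hR) (Def.not hS)

theorem Def_RelM {K : ℕ} (s : Fin K → M3) {f g : (ℕ → M) → M} (hf : DefF f) (hg : DefF g) :
    Def (fun v => RelM s (f v) (g v)) := by
  apply Def_forall_fin
  intro i
  apply Def.all
  have hf' : DefF (fun v : ℕ → M => f (fun n => v (n + 1))) := hf.ren (fun n => n + 1)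
  have hg' : DefF (fun v : ℕ → M => g (fun n => v (n + 1))) := hg.ren (fun n => n + 1)
  apply Def_kerP
  · exact Def.not (Def.iff (Def.mem (DefF_pos _ _ (DefF.var 0)) hf')
      (Def.mem (DefF_pos _ _ (DefF.var 0)) hg'))
  · exact Def.not (Def.iff (Def.mem (DefF_pos _ _ (DefF.var 0)) hf')
      (Def.mem (DefF_pos _ _ (DefF.var 0)) hg'))

theorem RelM_refl {K : ℕ} (s : Fin K → M3) (w : M) : RelM s w w := by
  intro i t
  refine (kerP_congr (s i) ?_ ?_).2 (kerP_false (s i)) <;> simp

theorem RelM_symm {K : ℕ} {s : Fin K → M3} {w w' : M} (h : RelM s w w') : RelM s w' w := by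
  intro i t
  refine (kerP_congr (s i) ?_ ?_).1 (h i t)
  · rw [iff_comm (a := Mem _ w)]
  · rw [iff_comm (a := Mem _ w)]

theorem RelM_trans {K : ℕ} {s : Fin K → M3} {w w' w'' : M} (h : RelM s w w')
    (h' : RelM s w' w'') : RelM s w w'' := by
  intro i t
  have h1 := h i t
  have h2 := h' i t
  revert h1 h2
  generalize Mem (pos K t (2 * i)) w = p1
  generalize Mem (pos K t (2 * i)) w' = p2
  generalize Mem (pos K t (2 * i)) w'' = p3
  generalize Mem (pos K t (2 * i + 1)) w = q1
  generalize Mem (pos K t (2 * i + 1)) w' = q2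
  generalize Mem (pos K t (2 * i + 1)) w'' = q3
  generalize s i = r
  cases r <;> simp only [kerP] <;> tauto

theorem RelM_bot {K : ℕ} (w w' : M) : RelM (⊥ : Fin K → M3) w w' := fun _ _ => trivial

theorem RelM_sup {K : ℕ} (s s' : Fin K → M3) (w w' : M) :
    RelM (s ⊔ s') w w' ↔ RelM s w w' ∧ RelM s' w w' := by
  have key : ∀ (x y : M3) (d e : Prop), kerP (x ⊔ y) d e ↔ kerP x d e ∧ kerP y d e := by
    intro x y d e
    cases x <;> cases y <;> (
      first
      | (show True ↔ True ∧ True; tauto)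
      | skip)
    all_goals
      simp only [show ∀ s : M3, M3.bot ⊔ s = s by decide, show ∀ s : M3, s ⊔ M3.bot = s by decide,
        show ∀ s : M3, M3.top ⊔ s = M3.top by decide, show ∀ s : M3, s ⊔ M3.top = M3.top by decide,
        show ∀ s : M3, s ⊔ s = s by decide, show M3.a ⊔ M3.b = M3.top by decide,
        show M3.b ⊔ M3.a = M3.top by decide, show M3.a ⊔ M3.c = M3.top by decide,
        show M3.c ⊔ M3.a = M3.top by decide, show M3.b ⊔ M3.c = M3.top by decide,
        show M3.c ⊔ M3.b = M3.top by decide, kerP]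
    all_goals tauto
  constructor
  · intro h
    exact ⟨fun i t => ((key _ _ _ _).1 (h i t)).1, fun i t => ((key _ _ _ _).1 (h i t)).2⟩
  · rintro ⟨h1, h2⟩ i t
    exact (key _ _ _ _).2 ⟨h1 i t, h2 i t⟩

theorem RelM_mono {K : ℕ} {s s' : Fin K → M3} (h : s' ≤ s) {w w' : M} (hw : RelM s w w') :
    RelM s' w w' := by
  have : s = s' ⊔ s := (sup_eq_right.2 h).symm
  rw [this, RelM_sup] at hw
  exact hw.1

theorem RelM_finset_sup {K : ℕ} {ι : Type} (F : Finset ι) (s : ι → Fin K → M3) (w w' : M) :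
    RelM (F.sup s) w w' ↔ ∀ i ∈ F, RelM (s i) w w' := by
  classical
  induction F using Finset.induction_on with
  | empty =>
    rw [Finset.sup_empty]
    simp [RelM_bot]
  | insert i F _ ih => rw [Finset.sup_insert, RelM_sup, ih]; simp

theorem RelM_top {K : ℕ} {c w w' : M} (hw : w < bd K c) (hw' : w' < bd K c)
    (h : RelM (⊤ : Fin K → M3) w w') : w = w' := by
  by_cases hK : K = 0
  · subst hK
    have e : bd 0 c = (1 : M) := by
      unfold bd
      rw [mul_zero, Nat.cast_zero, zero_mul, pow2_zero]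
    rw [e, lt_one_iff'] at hw hw'
    rw [hw, hw']
  · apply mem_ext
    intro x
    have hpos : (0 : M) < ((2 * K : ℕ) : M) := by
      have := natCast_lt (M := M) (show 0 < 2 * K by omega)
      rwa [Nat.cast_zero] at this
    obtain ⟨r, ⟨q, hq⟩, hr⟩ := exists_rem x hpos
    obtain ⟨j, hj, rfl⟩ := std_of_lt (2 * K) r hr
    have e : x = pos K q j := by rw [hq, pos, mul_comm]
    rw [e]
    rcases Nat.even_or_odd' j with ⟨i, rfl | rfl⟩
    · have h1 := (h ⟨i, by omega⟩ q).1
      exact not_not.1 h1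
    · have h1 := (h ⟨i, by omega⟩ q).2
      exact not_not.1 h1

/-! ### words of standard length -/

open Classical in
/-- decoding -/
noncomputable def dc (n K : ℕ) (w : M) : Fin n → Fin K → F4 := fun t i =>
  (if Mem (pos K ((t : ℕ) : M) (2 * i)) w then 1 else 0,
    if Mem (pos K ((t : ℕ) : M) (2 * i + 1)) w then 1 else 0)

theorem bd_natCast (K n : ℕ) : bd K (n : M) = ((2 ^ (2 * K * n) : ℕ) : M) := by
  unfold bd
  rw [← Nat.cast_mul, pow2_natCast]

theorem not_mem_of_le {K : ℕ} {c t w : M} (hw : w < bd K c) (h : c ≤ t) (j : ℕ) :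
    ¬ Mem (pos K t j) w := by
  intro h1
  have h2 := h1.lt_of_lt_pow2 hw
  have h3 : ((2 * K : ℕ) : M) * c ≤ pos K t j :=
    le_trans (mul_le_mul_of_nonneg_left h zero_le) le_self_add
  exact absurd h2 (not_lt.mpr h3)

theorem kerP_dc (s : M3) (p p' q q' : Prop) [Decidable p] [Decidable p'] [Decidable q]
    [Decidable q'] :
    kerP s (¬ (p ↔ p')) (¬ (q ↔ q')) ↔
      ker3 s (((if p then 1 else 0, if q then 1 else 0) : F4) -
        (if p' then 1 else 0, if q' then 1 else 0)) := by
  by_cases hp : p <;> by_cases hp' : p' <;> by_cases hq : q <;> by_cases hq' : q' <;>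
    simp only [hp, hp', hq, hq', if_true, if_false, iff_self, iff_false, iff_true, not_true,
      not_false_iff] <;> cases s <;>
    simp only [kerP, ker3] <;> decide

theorem RelM_iff_dc {K n : ℕ} (s : Fin K → M3) {w w' : M} (hw : w < bd K (n : M))
    (hw' : w' < bd K (n : M)) : RelM s w w' ↔ Rel s (dc n K w) (dc n K w') := by
  classical
  constructor
  · intro h t i
    have h1 := (kerP_dc (s i) _ _ _ _).1 (h i ((t : ℕ) : M))
    simp only [dc]
    convert h1
  · intro h i t
    by_cases ht : t < (n : M)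
    · obtain ⟨k, hk, rfl⟩ := std_of_lt n t ht
      have h1 := h ⟨k, hk⟩ i
      refine (kerP_dc (s i) _ _ _ _).2 ?_
      simp only [dc] at h1
      convert h1
    · have h1 := not_lt.1 ht
      refine (kerP_congr (s i) ?_ ?_).2 (kerP_false (s i))
      · simp [not_mem_of_le hw h1, not_mem_of_le hw' h1]
      · simp [not_mem_of_le hw h1, not_mem_of_le hw' h1]

theorem exists_cd {n K : ℕ} (φ : Fin n → Fin K → F4) :
    ∃ w : M, w < bd K (n : M) ∧ dc n K w = φ := by
  classical
  obtain ⟨w, hw, h⟩ := exists_digits (M := M) (fun p => ∃ (t : Fin n) (i : Fin K),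
    (p = 2 * K * t + 2 * i ∧ (φ t i).1 = 1) ∨ (p = 2 * K * t + (2 * i + 1) ∧ (φ t i).2 = 1))
    (2 * K * n)
  refine ⟨w, ?_, ?_⟩
  · unfold bd
    rw [← Nat.cast_mul]
    exact hw
  · have e1 : ∀ (t : ℕ) (j : ℕ), pos K (t : M) j = ((2 * K * t + j : ℕ) : M) := by
      intro t j
      unfold pos
      push_cast
      ring
    have hlt : ∀ (t : Fin n) (j : ℕ), j < 2 * K → 2 * K * t + j < 2 * K * n := by
      intro t j hj
      have h1 : (t : ℕ) + 1 ≤ n := t.2
      calc 2 * K * t + j < 2 * K * t + 2 * K := by omega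
        _ = 2 * K * (t + 1) := by ring
        _ ≤ 2 * K * n := Nat.mul_le_mul_left _ h1
    have huniq : ∀ (t t' j j' : ℕ), j < 2 * K → j' < 2 * K → 2 * K * t + j = 2 * K * t' + j' →
        t = t' ∧ j = j' := by
      intro t t' j j' hj hj' he
      have h1 : (2 * K * t + j) / (2 * K) = t := by
        rw [Nat.mul_add_div (by omega), Nat.div_eq_of_lt hj, add_zero]
      have h2 : (2 * K * t' + j') / (2 * K) = t' := by
        rw [Nat.mul_add_div (by omega), Nat.div_eq_of_lt hj', add_zero]
      have h3 : t = t' := by rw [← h1, ← h2, he]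
      subst h3
      exact ⟨rfl, by omega⟩
    have z01 : ∀ x : ZMod 2, x ≠ 1 → x = 0 := by decide
    funext t i
    have hi := i.2
    have b1 : Mem (pos K ((t : ℕ) : M) (2 * i)) w ↔ (φ t i).1 = 1 := by
      rw [e1, h _ (hlt t _ (by omega))]
      constructor
      · rintro ⟨t', i', ⟨h1, h2⟩ | ⟨h1, h2⟩⟩
        · have hi' := i'.2
          obtain ⟨h3, h4⟩ := huniq _ _ _ _ (by omega) (by omega) h1
          have h5 : t = t' := Fin.ext h3
          have h6 : i = i' := Fin.ext (by omega)
          rw [h5, h6]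
          exact h2
        · have hi' := i'.2
          obtain ⟨h3, h4⟩ := huniq _ _ _ _ (by omega) (by omega) h1
          omega
      · intro h1
        exact ⟨t, i, Or.inl ⟨rfl, h1⟩⟩
    have b2 : Mem (pos K ((t : ℕ) : M) (2 * i + 1)) w ↔ (φ t i).2 = 1 := by
      rw [e1, h _ (hlt t _ (by omega))]
      constructor
      · rintro ⟨t', i', ⟨h1, h2⟩ | ⟨h1, h2⟩⟩
        · have hi' := i'.2
          obtain ⟨h3, h4⟩ := huniq _ _ _ _ (by omega) (by omega) h1
          omega
        · have hi' := i'.2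
          obtain ⟨h3, h4⟩ := huniq _ _ _ _ (by omega) (by omega) h1
          have h5 : t = t' := Fin.ext h3
          have h6 : i = i' := Fin.ext (by omega)
          rw [h5, h6]
          exact h2
      · intro h1
        exact ⟨t, i, Or.inr ⟨rfl, h1⟩⟩
    simp only [dc]
    refine Prod.ext ?_ ?_
    · show (if Mem (pos K ((t : ℕ) : M) (2 * i)) w then (1 : ZMod 2) else 0) = (φ t i).1
      split_ifs with h1
      · exact (b1.1 h1).symm
      · exact (z01 _ (fun h2 => h1 (b1.2 h2))).symm
    · show (if Mem (pos K ((t : ℕ) : M) (2 * i + 1)) w then (1 : ZMod 2) else 0) = (φ t i).2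
      split_ifs with h1
      · exact (b2.1 h1).symm
      · exact (z01 _ (fun h2 => h1 (b2.2 h2))).symm

/-- coding -/
noncomputable def cd {n K : ℕ} (φ : Fin n → Fin K → F4) : M := (exists_cd φ).choose

theorem cd_lt {n K : ℕ} (φ : Fin n → Fin K → F4) : (cd φ : M) < bd K (n : M) :=
  (exists_cd φ).choose_spec.1

theorem dc_cd {n K : ℕ} (φ : Fin n → Fin K → F4) : dc n K (cd φ : M) = φ :=
  (exists_cd φ).choose_spec.2

theorem bd_mono {K : ℕ} {c c' : M} (h : c ≤ c') : bd K c ≤ bd K c' :=
  pow2_le (mul_le_mul_of_nonneg_left h zero_le)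

theorem bd_pos (K : ℕ) (c : M) : 0 < bd K c := pow2_pos _

theorem RelM_cd {n K : ℕ} (s : Fin K → M3) (φ φ' : Fin n → Fin K → F4) :
    RelM s (cd φ : M) (cd φ') ↔ Rel s φ φ' := by
  rw [RelM_iff_dc s (cd_lt φ) (cd_lt φ'), dc_cd, dc_cd]

end

end Run7.h696
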