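import Pool.Agent.Run7.h696.PA2

/-!
The canonical partition step inside a nonstandard model of Peano arithmetic.
-/

set_option autoImplicit false

universe u

namespace Run7.h696

open FirstOrder FirstOrder.Language Pool.Agent.Helper687.Arith

section

variable {M : Type u} [PAModel M]

theorem DefF_comp {Φ : M → M} (h : DefF (fun v => Φ (v 0))) {f : (ℕ → M) → M} (hf : DefF f) :
    DefF (fun v => Φ (f v)) := DefF.app1 h hf

/-- **The step inside the model.** -/
theorem mstep (hns : ∃ c : M, Nonstd c) {K K' : ℕ} (f : SupBotHom (Fin K → M3) (Fin K' → M3))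
    (c : M) (hc : Nonstd c) (Φ : M → M) (hΦ : DefF (fun v => Φ (v 0))) :
    ∃ c' : M, Nonstd c' ∧ ∃ (r : Fin K → M3) (e : M),
      (∀ w, w < bd K' c' → ap e w < bd K c) ∧
      (∀ (s : Fin K → M3) (w w' : M), w < bd K' c' → w' < bd K' c' →
        (RelM s (ap e w) (ap e w') ↔ RelM (f s) w w')) ∧
      ∀ w w', w < bd K' c' → w' < bd K' c' →
        (Φ (ap e w) = Φ (ap e w') ↔ RelM (f r) w w') := by
  classical
  refine overspill (P := fun m => ∃ (r : Fin K → M3) (e : M),
      (∀ w, w < bd K' m → ap e w < bd K c) ∧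
      (∀ (s : Fin K → M3) (w w' : M), w < bd K' m → w' < bd K' m →
        (RelM s (ap e w) (ap e w') ↔ RelM (f s) w w')) ∧
      ∀ w w', w < bd K' m → w' < bd K' m →
        (Φ (ap e w) = Φ (ap e w') ↔ RelM (f r) w w')) ?_ hns ?_
  · apply Def_exists_fin
    intro r
    apply Def.ex
    apply Def.and
    · apply Def.all
      apply Def.imp
      · exact Def.lt (DefF.var 0) (DefF_bd _ (DefF.var 2))
      · exact Def.lt (DefF.ap (DefF.var 1) (DefF.var 0)) (DefF.const _)
    · apply Def.and
      · apply Def_forall_fin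
        intro s
        apply Def.all
        apply Def.all
        apply Def.imp
        · exact Def.lt (DefF.var 1) (DefF_bd _ (DefF.var 3))
        · apply Def.imp
          · exact Def.lt (DefF.var 0) (DefF_bd _ (DefF.var 3))
          · apply Def.iff
            · exact Def_RelM _ (DefF.ap (DefF.var 2) (DefF.var 1))
                (DefF.ap (DefF.var 2) (DefF.var 0))
            · exact Def_RelM _ (DefF.var 1) (DefF.var 0)
      · apply Def.all
        apply Def.all
        apply Def.imp
        · exact Def.lt (DefF.var 1) (DefF_bd _ (DefF.var 3))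
        · apply Def.imp
          · exact Def.lt (DefF.var 0) (DefF_bd _ (DefF.var 3))
          · apply Def.iff
            · exact Def.eq (DefF_comp hΦ (DefF.ap (DefF.var 2) (DefF.var 1)))
                (DefF_comp hΦ (DefF.ap (DefF.var 2) (DefF.var 0)))
            · exact Def_RelM _ (DefF.var 1) (DefF.var 0)
  · intro m
    obtain ⟨n, hn⟩ := comb f m
    obtain ⟨r, g, h1, h2⟩ := hn (Setoid.ker fun φ : Fin n → Fin K → F4 => Φ (cd φ))
    obtain ⟨e, he⟩ := code_fin (fun k : ℕ => (cd (g (dc m K' (k : M))) : M)) (2 ^ (2 * K' * m))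
    have he' : ∀ w : M, w < bd K' (m : M) → ap e w = cd (g (dc m K' w)) := by
      intro w hw
      rw [bd_natCast] at hw
      obtain ⟨k, hk, rfl⟩ := std_of_lt _ w hw
      exact he k hk
    refine ⟨r, e, ?_, ?_, ?_⟩
    · intro w hw
      rw [he' w hw]
      exact (cd_lt _).trans_le (bd_mono (hc n).le)
    · intro s w w' hw hw'
      rw [he' w hw, he' w' hw', RelM_cd, h1, RelM_iff_dc _ hw hw']
    · intro w w' hw hw'
      rw [he' w hw, he' w' hw', RelM_iff_dc _ hw hw', ← h2]
      rfl

/-- the relations of words determine the elements of the powers of `M₃` -/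
theorem rel_order {K : ℕ} {c : M} (hc : Nonstd c) {r r' : Fin K → M3}
    (h : ∀ w w', w < bd K c → w' < bd K c → RelM r w w' → RelM r' w w') : r' ≤ r := by
  classical
  intro i
  by_contra hi
  have key : ∀ p q : M3, ¬ q ≤ p → ∃ v : F4, ker3 p v ∧ ¬ ker3 q v := by decide
  obtain ⟨v, hv, hv'⟩ := key _ _ hi
  let φ : Fin 1 → Fin K → F4 := fun _ => Function.update 0 i v
  have hlt : ∀ φ : Fin 1 → Fin K → F4, (cd φ : M) < bd K c := fun φ =>
    (cd_lt φ).trans_le (bd_mono (hc 1).le)
  have h1 := h (cd φ) (cd (0 : Fin 1 → Fin K → F4)) (hlt _) (hlt _) ((RelM_cd _ _ _).2 (by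
    intro t j
    show ker3 (r j) (Function.update (0 : Fin K → F4) i v j - 0)
    rw [sub_zero]
    by_cases hj : j = i
    · subst hj
      rw [Function.update_self]
      exact hv
    · rw [Function.update_of_ne hj]
      exact ker3_zero _))
  rw [RelM_cd] at h1
  have h2 := h1 0 i
  have h3 : φ 0 i - (0 : Fin 1 → Fin K → F4) 0 i = v := by
    show Function.update (0 : Fin K → F4) i v i - 0 = v
    rw [sub_zero, Function.update_self]
  rw [h3] at h2
  exact hv' h2

/-- a definable function with at most two values of type `r` is constant -/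
theorem rel_two {K : ℕ} {c : M} (hc : Nonstd c) {r : Fin K → M3} (F : M → Prop)
    (h : ∀ w w', w < bd K c → w' < bd K c → ((F w ↔ F w') ↔ RelM r w w')) : r = ⊥ := by
  classical
  by_contra hr
  have h1 : ∃ i, r i ≠ M3.bot := by
    by_contra hno
    push Not at hno
    exact hr (funext hno)
  obtain ⟨i, hi⟩ := h1
  have key : ∀ p : M3, p ≠ M3.bot → ∃ v : F4, ¬ ker3 p v ∧ ¬ ker3 p (-v) := by decide
  obtain ⟨v, hv, hv'⟩ := key _ hi
  have hlt : ∀ φ : Fin 2 → Fin K → F4, (cd φ : M) < bd K c := fun φ =>
    (cd_lt φ).trans_le (bd_mono (hc 2).le)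
  let φ1 : Fin 2 → Fin K → F4 := fun t => if t = 0 then Function.update (0 : Fin K → F4) i v else 0
  let φ2 : Fin 2 → Fin K → F4 := fun t => if t = 1 then Function.update (0 : Fin K → F4) i v else 0
  have e1 : ¬ RelM r (cd φ1 : M) (cd (0 : Fin 2 → Fin K → F4)) := by
    rw [RelM_cd]
    intro h2
    have h3 := h2 0 i
    apply hv
    have h4 : φ1 0 i - (0 : Fin 2 → Fin K → F4) 0 i = v := by
      show (if (0 : Fin 2) = 0 then Function.update (0 : Fin K → F4) i v else 0) i - (0 : F4) = v
      rw [if_pos rfl, Function.update_self, sub_zero]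
    rwa [h4] at h3
  have e2 : ¬ RelM r (cd φ2 : M) (cd (0 : Fin 2 → Fin K → F4)) := by
    rw [RelM_cd]
    intro h2
    have h3 := h2 1 i
    apply hv
    have h4 : φ2 1 i - (0 : Fin 2 → Fin K → F4) 1 i = v := by
      show (if (1 : Fin 2) = 1 then Function.update (0 : Fin K → F4) i v else 0) i - (0 : F4) = v
      rw [if_pos rfl, Function.update_self, sub_zero]
    rwa [h4] at h3
  have e3 : ¬ RelM r (cd φ1 : M) (cd φ2) := by
    rw [RelM_cd]
    intro h2
    have h3 := h2 0 i
    apply hv
    have h4 : φ1 0 i - φ2 0 i = v := by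
      show (if (0 : Fin 2) = 0 then Function.update (0 : Fin K → F4) i v else 0) i -
        (if (0 : Fin 2) = 1 then Function.update (0 : Fin K → F4) i v else (0 : Fin K → F4)) i = v
      rw [if_pos rfl, Function.update_self, if_neg (by decide)]
      show v - 0 = v
      rw [sub_zero]
    rwa [h4] at h3
  rw [← h _ _ (hlt _) (hlt _)] at e1 e2 e3
  tauto

end

end Run7.h696
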