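import Pool.Agent.Run7.h696.PA3

/-!
The tower of canonical partition steps in a countable nonstandard model of Peano arithmetic.
-/

set_option autoImplicit false

universe u v

namespace Run7.h696

open FirstOrder FirstOrder.Language Pool.Agent.Helper687.Arith

/-- unary functions which are definable with parameters -/
def Df {M : Type u} [LA.Structure M] (F : M → M) : Prop := DefF (fun v => F (v 0))

/-- a direct system of powers of `M₃` with a compatible map into `T` -/
structure Sys (T : Type v) [SemilatticeSup T] [OrderBot T] where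
  K : ℕ → ℕ
  φ : ∀ n, SupBotHom (Fin (K n) → M3) T
  f : ∀ n, SupBotHom (Fin (K n) → M3) (Fin (K (n + 1)) → M3)
  comm : ∀ n u, φ (n + 1) (f n u) = φ n u
  mono : ∀ n u u', φ n u ≤ φ n u' → f n u ≤ f n u'
  top : ∀ n, f n ⊤ = ⊤

theorem countable_symbols : Countable LA.Symbols := by
  have h1 : Countable (Σ l, LA.Functions l) := by
    have hinj : Function.Injective (fun x : Σ l, LA.Functions l =>
        (match x with
          | ⟨_, .zero⟩ => 0
          | ⟨_, .succ⟩ => 1
          | ⟨_, .add⟩ => 2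
          | ⟨_, .mul⟩ => 3 : ℕ)) := by
      rintro ⟨_, f⟩ ⟨_, g⟩ h
      cases f <;> cases g <;> first | rfl | (exfalso; revert h; simp)
    exact hinj.countable
  have h2 : Countable (Σ l, LA.Relations l) := by
    have : IsEmpty (Σ l, LA.Relations l) := ⟨fun x => (x.2 : Empty).elim⟩
    infer_instance
  exact instCountableSum

theorem countable_Df (M : Type u) [LA.Structure M] [Countable M] :
    Countable {F : M → M // Df F} := by
  have := countable_symbols
  have h1 : ∀ F : {F : M → M // Df F}, ∃ φ : LA.Formula (M ⊕ ℕ), ∀ v : ℕ → M,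
      φ.Realize (Sum.elim id v) ↔ v 0 = F.1 (v 1) := fun F => F.2
  choose φ hφ using h1
  have hinj : Function.Injective φ := by
    intro F G h
    apply Subtype.ext
    funext x
    have h2 := (hφ F (fun n => if n = 0 then F.1 x else x)).2 (by simp)
    rw [h, hφ G] at h2
    simpa using h2
  exact hinj.countable

section tower

variable {M : Type u} [PAModel M]

/-- the tower -/
structure Tower (M : Type u) [PAModel M] (K : ℕ → ℕ)
    (f : ∀ n, SupBotHom (Fin (K n) → M3) (Fin (K (n + 1)) → M3)) where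
  c : ℕ → M
  J : ℕ → M → M
  g : ℕ → M → M
  hc : ∀ n, Nonstd (c n)
  hJ : ∀ n, Df (J n)
  J0 : ∀ w, J 0 w = w
  hg : ∀ n w, w < bd (K (n + 1)) (c (n + 1)) → g n w < bd (K n) (c n)
  hJg : ∀ n w, J (n + 1) w = J n (g n w)
  hrel : ∀ n (s : Fin (K n) → M3) w w', w < bd (K (n + 1)) (c (n + 1)) →
    w' < bd (K (n + 1)) (c (n + 1)) → (RelM s (g n w) (g n w') ↔ RelM (f n s) w w')
  dec : ∀ F : M → M, Df F → ∃ (n : ℕ) (r : Fin (K n) → M3), ∀ w w', w < bd (K n) (c n) →
    w' < bd (K n) (c n) → (F (J n w) = F (J n w') ↔ RelM r w w')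

/-- a stage of the tower -/
structure Stage (M : Type u) [PAModel M] where
  c : M
  J : M → M
  hc : Nonstd c
  hJ : Df J

theorem exists_tower [Countable M] (hns : ∃ c : M, Nonstd c) (K : ℕ → ℕ)
    (f : ∀ n, SupBotHom (Fin (K n) → M3) (Fin (K (n + 1)) → M3)) : Nonempty (Tower M K f) := by
  classical
  have hcount := countable_Df M
  have hne : Nonempty {F : M → M // Df F} := ⟨⟨fun x => x, DefF.var 0⟩⟩
  obtain ⟨Fs, hFs⟩ := exists_surjective_nat {F : M → M // Df F}
  have step : ∀ (n : ℕ) (s : Stage M), ∃ (s' : Stage M) (g : M → M),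
      (∀ w, w < bd (K (n + 1)) s'.c → g w < bd (K n) s.c) ∧ (∀ w, s'.J w = s.J (g w)) ∧
      (∀ (r : Fin (K n) → M3) w w', w < bd (K (n + 1)) s'.c → w' < bd (K (n + 1)) s'.c →
        (RelM r (g w) (g w') ↔ RelM (f n r) w w')) ∧
      ∃ r : Fin (K n) → M3, ∀ w w', w < bd (K (n + 1)) s'.c → w' < bd (K (n + 1)) s'.c →
        ((Fs n).1 (s'.J w) = (Fs n).1 (s'.J w') ↔ RelM (f n r) w w') := by
    intro n s
    obtain ⟨c', hc', r, e, h1, h2, h3⟩ := mstep hns (f n) s.c s.hc (fun x => (Fs n).1 (s.J x))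
      (DefF_comp (Fs n).2 s.hJ)
    refine ⟨⟨c', fun w => s.J (ap e w), hc', DefF_comp s.hJ (DefF.ap (DefF.const e) (DefF.var 0))⟩,
      fun w => ap e w, h1, fun w => rfl, h2, r, h3⟩
  choose nx g h1 h2 h3 h4 using step
  obtain ⟨c0, hc0⟩ := hns
  let s0 : Stage M := ⟨c0, fun x => x, hc0, DefF.var 0⟩
  let st : ℕ → Stage M := fun n => Nat.rec s0 (fun n s => nx n s) n
  refine ⟨⟨fun n => (st n).c, fun n => (st n).J, fun n => g n (st n), fun n => (st n).hc,
    fun n => (st n).hJ, fun w => rfl, fun n => h1 n (st n), fun n => h2 n (st n),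
    fun n => h3 n (st n), fun F hF => ?_⟩⟩
  obtain ⟨n, hn⟩ := hFs ⟨F, hF⟩
  obtain ⟨r, hr⟩ := h4 n (st n)
  refine ⟨n + 1, f n r, fun w w' hw hw' => ?_⟩
  have := hr w w' hw hw'
  rw [hn] at this
  exact this

variable {K : ℕ → ℕ} {f : ∀ n, SupBotHom (Fin (K n) → M3) (Fin (K (n + 1)) → M3)}

namespace Tower

variable (T : Tower M K f)

/-- `w` is a word of stage `n` -/
def W (n : ℕ) (w : M) : Prop := w < bd (K n) (T.c n)

/-- the function `F` has the type `r` at stage `n` -/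
def Ty (n : ℕ) (F : M → M) (r : Fin (K n) → M3) : Prop :=
  ∀ w w', T.W n w → T.W n w' → (F (T.J n w) = F (T.J n w') ↔ RelM r w w')

/-- the set of stage `n` -/
def X (n : ℕ) : Set M := {x | ∃ w, T.W n w ∧ T.J n w = x}

theorem X_nonempty (n : ℕ) : (T.X n).Nonempty := ⟨_, 0, bd_pos _ _, rfl⟩

theorem X_succ (n : ℕ) : T.X (n + 1) ⊆ T.X n := by
  rintro x ⟨w, hw, rfl⟩
  exact ⟨T.g n w, T.hg n w hw, (T.hJg n w).symm⟩

theorem X_anti {n m : ℕ} (h : n ≤ m) : T.X m ⊆ T.X n := by
  induction m, h using Nat.le_induction with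
  | base => exact le_rfl
  | succ m _ ih => exact (T.X_succ m).trans ih

theorem Ty_succ {n : ℕ} {F : M → M} {r : Fin (K n) → M3} (h : T.Ty n F r) :
    T.Ty (n + 1) F (f n r) := by
  intro w w' hw hw'
  rw [T.hJg, T.hJg, h _ _ (T.hg n w hw) (T.hg n w' hw'), T.hrel n r w w' hw hw']

theorem Ty_le {n : ℕ} {F G : M → M} {r s : Fin (K n) → M3} (hF : T.Ty n F r) (hG : T.Ty n G s)
    (h : ∀ w w', T.W n w → T.W n w' → G (T.J n w) = G (T.J n w') → F (T.J n w) = F (T.J n w')) :
    r ≤ s :=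
  rel_order (T.hc n) fun w w' hw hw' h1 => (hF w w' hw hw').1 (h w w' hw hw' ((hG w w' hw hw').2 h1))

theorem Ty_uniq {n : ℕ} {F : M → M} {r s : Fin (K n) → M3} (hF : T.Ty n F r) (hG : T.Ty n F s) :
    r = s :=
  le_antisymm (T.Ty_le hF hG fun _ _ _ _ h => h) (T.Ty_le hG hF fun _ _ _ _ h => h)

theorem J_inj (hf : ∀ n, f n ⊤ = ⊤) (n : ℕ) : ∀ w w', T.W n w → T.W n w' →
    T.J n w = T.J n w' → w = w' := by
  induction n with
  | zero =>
    intro w w' _ _ h
    rwa [T.J0, T.J0] at h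
  | succ n ih =>
    intro w w' hw hw' h
    rw [T.hJg, T.hJg] at h
    have h1 := ih _ _ (T.hg n w hw) (T.hg n w' hw') h
    have h2 : RelM (⊤ : Fin (K n) → M3) (T.g n w) (T.g n w') := by
      rw [h1]
      exact RelM_refl _ _
    rw [T.hrel n _ _ _ hw hw', hf n] at h2
    exact RelM_top hw hw' h2

/-- every relation belongs to a definable function -/
theorem exists_of_type (hf : ∀ n, f n ⊤ = ⊤) (n : ℕ) (r : Fin (K n) → M3) :
    ∃ F : M → M, Df F ∧ T.Ty n F r := by
  classical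
  -- the least equivalent word
  let Q : M → M → Prop := fun x z => ∃ w, w < bd (K n) (T.c n) ∧ T.J n w = x ∧
    z < bd (K n) (T.c n) ∧ RelM r w z
  let F : M → M := fun x => the (fun z => Q x z ∧ ∀ y, y < z → ¬ Q x y)
  have hJ : ∀ {f : (ℕ → M) → M}, DefF f → DefF (fun v => T.J n (f v)) :=
    fun hf => DefF_comp (T.hJ n) hf
  have hQ : ∀ {f g : (ℕ → M) → M}, DefF f → DefF g → Def (fun v => Q (f v) (g v)) := by
    intro f g hf hg
    apply Def.ex
    have hf' : DefF (fun v : ℕ → M => f (fun n => v (n + 1))) := hf.ren (fun n => n + 1)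
    have hg' : DefF (fun v : ℕ → M => g (fun n => v (n + 1))) := hg.ren (fun n => n + 1)
    apply Def.and
    · exact Def.lt (DefF.var 0) (DefF.const _)
    · apply Def.and
      · exact Def.eq (hJ (DefF.var 0)) hf'
      · apply Def.and
        · exact Def.lt hg' (DefF.const _)
        · exact Def_RelM r (DefF.var 0) hg'
  have hF : Df F := by
    apply DefF.the
    apply Def.and
    · exact hQ (DefF.var 1) (DefF.var 0)
    · apply Def.all
      apply Def.imp
      · exact Def.lt (DefF.var 0) (DefF.var 1)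
      · exact Def.not (hQ (DefF.var 2) (DefF.var 0))
  refine ⟨F, hF, ?_⟩
  -- the value at a word
  have hspec : ∀ w, T.W n w → Q (T.J n w) (F (T.J n w)) ∧ ∀ y, y < F (T.J n w) →
      ¬ Q (T.J n w) y := by
    intro w hw
    have hex : ∃ z, Q (T.J n w) z := ⟨w, w, hw, rfl, hw, RelM_refl _ _⟩
    obtain ⟨z, hz, hmin⟩ := least (P := fun z => Q (T.J n w) z)
      (hQ (DefF.const _) (DefF.var 0)) hex
    refine the_spec (P := fun z => Q (T.J n w) z ∧ ∀ y, y < z → ¬ Q (T.J n w) y)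
      ⟨z, ⟨hz, hmin⟩, ?_⟩
    rintro z' ⟨hz', hmin'⟩
    rcases lt_trichotomy z' z with h | h | h
    · exact absurd hz' (hmin _ h)
    · exact h
    · exact absurd hz (hmin' _ h)
  have hQi : ∀ w z, T.W n w → (Q (T.J n w) z ↔ (T.W n z ∧ RelM r w z)) := by
    intro w z hw
    constructor
    · rintro ⟨w', hw', he, hz, hr⟩
      have := T.J_inj hf n w' w hw' hw he
      rw [this] at hr
      exact ⟨hz, hr⟩
    · rintro ⟨hz, hr⟩
      exact ⟨w, hw, rfl, hz, hr⟩
  intro w w' hw hw'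
  constructor
  · intro h
    have h1 := ((hQi _ _ hw).1 (hspec w hw).1).2
    have h2 := ((hQi _ _ hw').1 (hspec w' hw').1).2
    rw [← h] at h2
    exact RelM_trans h1 (RelM_symm h2)
  · intro h
    have hQQ : ∀ z, Q (T.J n w) z ↔ Q (T.J n w') z := by
      intro z
      rw [hQi _ _ hw, hQi _ _ hw']
      constructor
      · rintro ⟨h1, h2⟩
        exact ⟨h1, RelM_trans (RelM_symm h) h2⟩
      · rintro ⟨h1, h2⟩
        exact ⟨h1, RelM_trans h h2⟩
    show the (fun z => Q (T.J n w) z ∧ ∀ y, y < z → ¬ Q (T.J n w) y) =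
      the (fun z => Q (T.J n w') z ∧ ∀ y, y < z → ¬ Q (T.J n w') y)
    congr 1
    funext z
    simp only [hQQ]

/-- definable sets are decided -/
theorem decide_set (Y : M → Prop) (hY : Def (fun v => Y (v 0))) :
    ∃ n, (∀ x ∈ T.X n, Y x) ∨ ∀ x ∈ T.X n, ¬ Y x := by
  classical
  have hF : Df (fun x => the (fun z => (Y x ∧ z = 1) ∨ (¬ Y x ∧ z = 0))) := by
    have hY' : ∀ {f : (ℕ → M) → M}, DefF f → Def (fun v => Y (f v)) := fun hf => Def.sub1 hY hf
    apply DefF.the
    apply Def.or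
    · exact Def.and (hY' (DefF.var 1)) (Def.eq (DefF.var 0) (DefF.const _))
    · exact Def.and (Def.not (hY' (DefF.var 1))) (Def.eq (DefF.var 0) (DefF.const _))
  have hval : ∀ x, the (fun z => (Y x ∧ z = 1) ∨ (¬ Y x ∧ z = 0)) = if Y x then (1 : M) else 0 := by
    intro x
    apply the_eq (P := fun z => (Y x ∧ z = 1) ∨ (¬ Y x ∧ z = 0))
    · by_cases h : Y x
      · left
        exact ⟨h, if_pos h⟩
      · right
        exact ⟨h, if_neg h⟩
    · rintro y (⟨h, rfl⟩ | ⟨h, rfl⟩)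
      · rw [if_pos h]
      · rw [if_neg h]
  obtain ⟨n, r, hr⟩ := T.dec _ hF
  have h10 : (1 : M) ≠ 0 := one_ne_zero
  have hr' : ∀ w w', T.W n w → T.W n w' → ((Y (T.J n w) ↔ Y (T.J n w')) ↔ RelM r w w') := by
    intro w w' hw hw'
    rw [← hr w w' hw hw', hval, hval]
    by_cases h : Y (T.J n w) <;> by_cases h' : Y (T.J n w') <;> simp [h, h']
  have hbot := rel_two (T.hc n) (fun w => Y (T.J n w)) hr'
  refine ⟨n, ?_⟩
  have hcon : ∀ w w', T.W n w → T.W n w' → (Y (T.J n w) ↔ Y (T.J n w')) := by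
    intro w w' hw hw'
    rw [hr' w w' hw hw', hbot]
    exact RelM_bot _ _
  by_cases h0 : Y (T.J n 0)
  · left
    rintro x ⟨w, hw, rfl⟩
    exact (hcon 0 w (bd_pos _ _) hw).1 h0
  · right
    rintro x ⟨w, hw, rfl⟩ h1
    exact h0 ((hcon 0 w (bd_pos _ _) hw).2 h1)

end Tower

end tower

end Run7.h696
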