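import Pool.Agent.Run7.h696.Sv

/-!
The extension: an elementary substructure of an ultrapower, consisting of classes of definable
functions.
-/

set_option autoImplicit false

universe u v w

namespace Run7.h696

open FirstOrder FirstOrder.Language Pool.Agent.Helper687.Arith

/-! ### definability: blocks of quantifiers and substitution -/

section defin

variable {M : Type u} [PAModel M]

theorem Def_ex_fin (n : ℕ) : ∀ (S : (ℕ → M) → (Fin n → M) → Prop),
    Def (fun v => S (fun i => v (i + n)) (fun j => v j)) → Def (fun v => ∃ w : Fin n → M, S v w) := by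
  induction n with
  | zero =>
    intro S hS
    refine Def.congr hS (fun v => ?_)
    constructor
    · intro h
      exact ⟨_, h⟩
    · rintro ⟨w, h⟩
      have : w = fun j : Fin 0 => v j := Subsingleton.elim _ _
      rw [this] at h
      exact h
  | succ n ih =>
    intro S hS
    have h1 := ih (fun v w => ∃ a, S v (Fin.cons a w)) (by
      apply Def.ex
      refine Def.congr hS (fun v => ?_)
      have e1 : (fun j : Fin (n + 1) => v j) = Fin.cons (v 0) (fun j : Fin n => v (j + 1)) := by
        funext j
        refine Fin.cases ?_ (fun j => ?_) j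
        · rfl
        · rw [Fin.cons_succ, Fin.val_succ]
      rw [e1]
      exact Iff.rfl)
    refine Def.congr h1 (fun v => ?_)
    constructor
    · rintro ⟨w, a, h⟩
      exact ⟨_, h⟩
    · rintro ⟨w, h⟩
      refine ⟨Fin.tail w, w 0, ?_⟩
      rwa [Fin.cons_self_tail]

theorem Def_subst_fin {n : ℕ} {R : (Fin n → M) → Prop} (hR : Def (fun v => R (fun j => v j)))
    (h : Fin n → (ℕ → M) → M) (hh : ∀ j, DefF (h j)) : Def (fun v => R (fun j => h j v)) := by
  have h1 := Def_ex_fin n (fun v w => (∀ j, w j = h j v) ∧ R w) (by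
    apply Def.and
    · apply Def_forall_fin
      intro j
      exact Def.ren (fun i => match i with | 0 => (j : ℕ) | i + 1 => i + n) (hh j)
    · exact hR)
  refine Def.congr h1 (fun v => ?_)
  constructor
  · rintro ⟨w, h2, h3⟩
    have : w = fun j => h j v := funext h2
    rwa [this] at h3
  · intro h2
    exact ⟨_, fun j => rfl, h2⟩

theorem Def_realize {n : ℕ} (φ : LA.BoundedFormula Empty n) :
    Def (fun v : ℕ → M => φ.Realize default (fun j : Fin n => v j)) := by
  refine ⟨φ.toFormula.relabel (Sum.elim Empty.elim fun j : Fin n => Sum.inr (j : ℕ)), fun v => ?_⟩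
  rw [Formula.realize_relabel, BoundedFormula.realize_toFormula]
  have e1 : ((Sum.elim id v ∘ Sum.elim Empty.elim fun j : Fin n => Sum.inr (j : ℕ)) ∘ Sum.inl :
      Empty → M) = default := Subsingleton.elim _ _
  rw [e1]
  exact Iff.rfl

end defin

/-! ### the Tarski-Vaught property -/

section tv

variable {N : Type u} [LA.Structure N]

/-- the Tarski-Vaught property -/
def TV (P : Set N) : Prop :=
  ∀ (n : ℕ) (φ : LA.BoundedFormula Empty (n + 1)) (x : Fin n → N), (∀ i, x i ∈ P) → ∀ a : N,
    φ.Realize default (Fin.snoc x a : Fin (n + 1) → N) →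
      ∃ b ∈ P, φ.Realize default (Fin.snoc x b : Fin (n + 1) → N)

theorem TV.fun_mem {P : Set N} (h : TV P) {n : ℕ} (f : LA.Functions n) (x : Fin n → N)
    (hx : ∀ i, x i ∈ P) : Structure.funMap f x ∈ P := by
  let φ : LA.BoundedFormula Empty (n + 1) :=
    (Term.func f fun i : Fin n => Term.var (Sum.inr (Fin.castSucc i))).bdEqual
      (Term.var (Sum.inr (Fin.last n)))
  have hφ : ∀ a : N, φ.Realize default (Fin.snoc x a : Fin (n + 1) → N) ↔
      Structure.funMap f x = a := by
    intro a
    show BoundedFormula.Realize (Term.bdEqual _ _) _ _ ↔ _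
    rw [BoundedFormula.realize_bdEqual]
    simp only [Term.realize_func, Term.realize_var, Sum.elim_inr, Fin.snoc_castSucc,
      Fin.snoc_last]
  obtain ⟨b, hb, h1⟩ := h n φ x hx (Structure.funMap f x) ((hφ _).2 rfl)
  rw [(hφ b).1 h1]
  exact hb

/-- the elementary substructure given by a set with the Tarski-Vaught property -/
def ofTV (P : Set N) (h : TV P) : LA.ElementarySubstructure N :=
  Substructure.toElementarySubstructure
    { carrier := P
      fun_mem := fun f x hx => h.fun_mem f x hx }
    (fun n φ x a hφ => by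
      obtain ⟨b, hb, h1⟩ := h n φ (fun i => (x i : N)) (fun i => (x i).2) a hφ
      exact ⟨⟨b, hb⟩, h1⟩)

theorem mem_ofTV {P : Set N} (h : TV P) (x : N) : x ∈ ofTV P h ↔ x ∈ P := Iff.rfl

end tv

section ultra

variable {M : Type u} [PAModel M]

/-- the ultrapower -/
abbrev Ms (U : Ultrafilter M) : Type u := (U : Filter M).Product (fun _ : M => M)

/-- the class of a function in the ultrapower -/
def cl (U : Ultrafilter M) (F : M → M) : Ms U :=
  ((F : (a : M) → (fun _ : M => M) a) : (U : Filter M).Product (fun _ : M => M))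

omit [PAModel M] in
theorem cl_surj (U : Ultrafilter M) (q : Ms U) : ∃ F, cl U F = q :=
  Quotient.exists_rep q

omit [PAModel M] in
theorem cl_eq {U : Ultrafilter M} {F G : M → M} :
    cl U F = cl U G ↔ ∀ᶠ x in (U : Filter M), F x = G x := Quotient.eq''

theorem los {U : Ultrafilter M} {n : ℕ} (φ : LA.BoundedFormula Empty n) (x : Fin n → M → M) :
    φ.Realize default (fun i => cl U (x i)) ↔
      ∀ᶠ a in (U : Filter M), φ.Realize default (fun i => x i a) := by
  have : Nonempty M := ⟨0⟩
  have h := Ultraproduct.boundedFormula_realize_cast (L := LA) (M := fun _ : M => M) (u := U) φ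
    (fun i : Empty => i.elim) x
  have e1 : (fun i : Empty =>
      (((i.elim : M → M) : (a : M) → (fun _ : M => M) a) : (U : Filter M).Product
        (fun _ : M => M))) = (default : Empty → Ms U) := Subsingleton.elim _ _
  have e2 : ∀ a : M, (fun i : Empty => (i.elim : M → M) a) = (default : Empty → M) :=
    fun a => Subsingleton.elim _ _
  rw [e1] at h
  refine h.trans (Filter.eventually_congr (Filter.Eventually.of_forall fun a => ?_))
  rw [e2]

theorem los_formula {U : Ultrafilter M} {β : Type w} (φ : LA.Formula β) (x : β → M → M) :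
    φ.Realize (fun i => cl U (x i)) ↔ ∀ᶠ a in (U : Filter M), φ.Realize (fun i => x i a) := by
  have : Nonempty M := ⟨0⟩
  exact Ultraproduct.realize_formula_cast (L := LA) (M := fun _ : M => M) (u := U) φ x

variable {T : Type v} [SemilatticeSup T] [OrderBot T] (S : Sys T) (τ : Tower M S.K S.f)

theorem exists_ultra : ∃ U : Ultrafilter M, ∀ n, τ.X n ∈ U := by
  have hdir : Directed (fun x1 x2 : Filter M => x1 ≥ x2) fun n => Filter.principal (τ.X n) := by
    intro n m
    refine ⟨max n m, ?_, ?_⟩
    · exact Filter.principal_mono.2 (τ.X_anti (le_max_left _ _))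
    · exact Filter.principal_mono.2 (τ.X_anti (le_max_right _ _))
  have hne : (⨅ n, Filter.principal (τ.X n)).NeBot :=
    Filter.iInf_neBot_of_directed' hdir (fun n => Filter.principal_neBot_iff.2 (τ.X_nonempty n))
  refine ⟨Ultrafilter.of (⨅ n, Filter.principal (τ.X n)), fun n => ?_⟩
  apply Ultrafilter.of_le (⨅ n, Filter.principal (τ.X n))
  exact Filter.mem_iInf_of_mem n (Filter.mem_principal_self _)

variable {U : Ultrafilter M} (hU : ∀ n, τ.X n ∈ U)

include hU in
theorem eventually_iff (Y : M → Prop) (hY : Def (fun v => Y (v 0))) :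
    (∀ᶠ x in (U : Filter M), Y x) ↔ ∃ n, ∀ x ∈ τ.X n, Y x := by
  constructor
  · intro h
    obtain ⟨n, h1 | h1⟩ := τ.decide_set Y hY
    · exact ⟨n, h1⟩
    · exfalso
      have h2 : ∀ᶠ x in (U : Filter M), False := by
        filter_upwards [h, hU n] with x h3 h4
        exact h1 x h4 h3
      exact h2.exists.elim (fun _ h => h)
  · rintro ⟨n, h⟩
    exact Filter.mem_of_superset (hU n) h

/-- the classes of definable functions with value in `I` -/
def SI (U : Ultrafilter M) (I : Set T) : Set (Ms U) := {q | ∃ F, Df F ∧ cl U F = q ∧ sv S τ F ∈ I}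

/-- ideals of `T` -/
structure IsId (I : Set T) : Prop where
  lower : ∀ s t, s ≤ t → t ∈ I → s ∈ I
  sup : ∀ (n : ℕ) (f : Fin n → T), (∀ i, f i ∈ I) → Finset.univ.sup f ∈ I

theorem TV_SI (U : Ultrafilter M) {I : Set T} (hI : IsId I) : TV (SI S τ U I) := by
  classical
  intro n φ x hx a ha
  choose F hF1 hF2 hF3 using hx
  obtain ⟨A, rfl⟩ := cl_surj U a
  -- the definable relation
  let R : M → M → Prop := fun y z => φ.Realize default (Fin.snoc (fun i => F i y) z)
  have hR : ∀ {f g : (ℕ → M) → M}, DefF f → DefF g → Def (fun v => R (f v) (g v)) := by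
    intro f g hf hg
    have h1 := Def_subst_fin (R := fun w : Fin (n + 1) → M => φ.Realize default w)
      (Def_realize φ) (Fin.snoc (fun i v => F i (f v)) g : Fin (n + 1) → (ℕ → M) → M) (by
        intro j
        refine Fin.lastCases ?_ (fun j => ?_) j
        · rw [Fin.snoc_last]
          exact hg
        · rw [Fin.snoc_castSucc]
          exact DefF_comp (hF1 j) hf)
    refine Def.congr h1 (fun v => ?_)
    have e1 : (fun j => (Fin.snoc (fun i v => F i (f v)) g : Fin (n + 1) → (ℕ → M) → M) j v) =
        Fin.snoc (fun i => F i (f v)) (g v) := by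
      funext j
      refine Fin.lastCases ?_ (fun j => ?_) j
      · rw [Fin.snoc_last, Fin.snoc_last]
      · rw [Fin.snoc_castSucc, Fin.snoc_castSucc]
    rw [e1]
  let B : M → M := fun y => the (fun z => R y z ∧ ∀ z', z' < z → ¬ R y z')
  have hB : Df B := by
    apply DefF.the
    apply Def.and
    · exact hR (DefF.var 1) (DefF.var 0)
    · apply Def.all
      apply Def.imp
      · exact Def.lt (DefF.var 0) (DefF.var 1)
      · exact Def.not (hR (DefF.var 2) (DefF.var 0))
  have hBR : ∀ y z, R y z → R y (B y) := by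
    intro y z hz
    obtain ⟨z0, h0, hmin⟩ := least (P := fun z => R y z) (hR (DefF.const y) (DefF.var 0)) ⟨z, hz⟩
    exact (the_spec (P := fun z => R y z ∧ ∀ z', z' < z → ¬ R y z') ⟨z0, ⟨h0, hmin⟩, by
      rintro z' ⟨hz', hmin'⟩
      rcases lt_trichotomy z' z0 with h | h | h
      · exact absurd hz' (hmin _ h)
      · exact h
      · exact absurd h0 (hmin' _ h)⟩).1
  have esnoc : ∀ (C : M → M), (Fin.snoc x (cl U C) : Fin (n + 1) → Ms U) =
      fun j => cl U ((Fin.snoc F C : Fin (n + 1) → M → M) j) := by
    intro C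
    funext j
    refine Fin.lastCases ?_ (fun j => ?_) j
    · rw [Fin.snoc_last, Fin.snoc_last]
    · rw [Fin.snoc_castSucc, Fin.snoc_castSucc, hF2]
  have esnoc' : ∀ (C : M → M) (y : M), (fun j => (Fin.snoc F C : Fin (n + 1) → M → M) j y) =
      Fin.snoc (fun i => F i y) (C y) := by
    intro C y
    funext j
    refine Fin.lastCases ?_ (fun j => ?_) j
    · rw [Fin.snoc_last, Fin.snoc_last]
    · rw [Fin.snoc_castSucc, Fin.snoc_castSucc]
  rw [esnoc, los] at ha
  refine ⟨cl U B, ⟨B, hB, rfl, ?_⟩, ?_⟩
  · refine hI.lower _ _ (sv_le_of S τ F hF1 hB 0 ?_) (hI.sup n _ hF3)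
    intro y _ y' _ h
    have : R y = R y' := by
      funext z
      show φ.Realize default (Fin.snoc (fun i => F i y) z) =
        φ.Realize default (Fin.snoc (fun i => F i y') z)
      rw [show (fun i => F i y) = fun i => F i y' from funext h]
    show the (fun z => R y z ∧ ∀ z', z' < z → ¬ R y z') =
      the (fun z => R y' z ∧ ∀ z', z' < z → ¬ R y' z')
    rw [this]
  · rw [esnoc, los]
    filter_upwards [ha] with y hy
    rw [esnoc'] at hy ⊢
    exact hBR y _ hy

end ultra

end Run7.h696
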